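import Pool.Agent.Lib.MP_c7af3c_ag.T2.H76.Atk

/-!
# Atkinson's classification for `A ↦ (l ↦ V(A l))`, `l` the linear forms that vanish at `x`

`atk_forms`: if `V(A l)` has rank at most 2 for all integral forms `A` of degree `d + 1` and the
`V(A l)` span a space of dimension 3, then there is a plane `⟨x, u, v⟩` with `V = 0` on the multiples
of its linear forms, or a line `⟨x, u⟩` such that `V` has rank at most 1 on the multiples of its
linear forms.
-/

set_option autoImplicit false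

namespace Pool.Agent.T2.H76

open Module MvPolynomial

variable {Ω W : Type*} [Field Ω] [AddCommGroup W] [Module Ω W] {n : ℕ}

/-- the linear form with coefficients `l` -/
noncomputable def lin (Ω : Type*) [Field Ω] (n : ℕ) :
    (Fin (n + 1) → Ω) →ₗ[Ω] MvPolynomial (Fin (n + 1)) Ω :=
  ∑ i, (LinearMap.proj i).smulRight (X i)

theorem lin_apply (l : Fin (n + 1) → Ω) : lin Ω n l = ∑ i, l i • X i := by
  simp [lin]

theorem lin_hom (l : Fin (n + 1) → Ω) : (lin Ω n l).IsHomogeneous 1 := by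
  rw [lin_apply]
  refine IsHomogeneous.sum _ _ _ fun i _ => ?_
  rw [smul_eq_C_mul]
  simpa using (isHomogeneous_C (Fin (n + 1)) (l i)).mul (isHomogeneous_X Ω i)

theorem lin_single (i : Fin (n + 1)) (a : Ω) : lin Ω n (Pi.single i a) = a • X i := by
  rw [lin_apply, Finset.sum_eq_single i]
  · rw [Pi.single_eq_same]
  · intro j _ hj
    rw [Pi.single_eq_of_ne hj, zero_smul]
  · intro h
    exact absurd (Finset.mem_univ i) h

/-- the linear forms that vanish at `x` -/
def Mx (x : Fin (n + 1) → Ω) : Submodule Ω (Fin (n + 1) → Ω) where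
  carrier := {l | ∑ i, l i * x i = 0}
  add_mem' := by
    intro a b ha hb
    change ∑ i, (a + b) i * x i = 0
    have ha' : ∑ i, a i * x i = 0 := ha
    have hb' : ∑ i, b i * x i = 0 := hb
    simp only [Pi.add_apply, add_mul, Finset.sum_add_distrib, ha', hb', add_zero]
  zero_mem' := by
    change ∑ i, (0 : Fin (n + 1) → Ω) i * x i = 0
    simp
  smul_mem' := by
    intro c a ha
    change ∑ i, (c • a) i * x i = 0
    have ha' : ∑ i, a i * x i = 0 := ha
    simp only [Pi.smul_apply, smul_eq_mul, mul_assoc, ← Finset.mul_sum, ha', mul_zero]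

theorem mem_Mx {x l : Fin (n + 1) → Ω} : l ∈ Mx x ↔ ∑ i, l i * x i = 0 := Iff.rfl

/-- the space spanned by the `V(A l)` -/
def QV (x : Fin (n + 1) → Ω) (V : MvPolynomial (Fin (n + 1)) Ω →ₗ[Ω] W) (d : ℕ) :
    Submodule Ω W :=
  Submodule.span Ω {q | ∃ A l, A.IsHomogeneous d ∧ l ∈ Mx x ∧ V (A * lin Ω n l) = q}

theorem mem_QV {x : Fin (n + 1) → Ω} {V : MvPolynomial (Fin (n + 1)) Ω →ₗ[Ω] W} {d : ℕ}
    {A : MvPolynomial (Fin (n + 1)) Ω} {l : Fin (n + 1) → Ω} (hA : A.IsHomogeneous d)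
    (hl : l ∈ Mx x) : V (A * lin Ω n l) ∈ QV x V d :=
  Submodule.subset_span ⟨A, l, hA, hl, rfl⟩

/-- the bilinear map `(A, l) ↦ V(A l)` -/
noncomputable def phiV (x : Fin (n + 1) → Ω) (V : MvPolynomial (Fin (n + 1)) Ω →ₗ[Ω] W) (d : ℕ) :
    homogeneousSubmodule (Fin (n + 1)) Ω d →ₗ[Ω] Mx x →ₗ[Ω] QV x V d :=
  LinearMap.mk₂ Ω (fun A l => ⟨V (A * lin Ω n l), mem_QV A.2 l.2⟩)
    (fun A A' l => Subtype.ext (by
      change V ((A + A' : MvPolynomial (Fin (n + 1)) Ω) * _) = V _ + V _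
      rw [add_mul, map_add]))
    (fun c A l => Subtype.ext (by
      change V ((c • A : MvPolynomial (Fin (n + 1)) Ω) * _) = c • V _
      rw [smul_mul_assoc, map_smul]))
    (fun A l l' => Subtype.ext (by
      change V (_ * lin Ω n (l + l' : Fin (n + 1) → Ω)) = V _ + V _
      rw [map_add, mul_add, map_add]))
    (fun c A l => Subtype.ext (by
      change V (_ * lin Ω n (c • l : Fin (n + 1) → Ω)) = c • V _
      rw [map_smul, mul_smul_comm, map_smul]))

theorem phiV_coe (x : Fin (n + 1) → Ω) (V : MvPolynomial (Fin (n + 1)) Ω →ₗ[Ω] W) (d : ℕ)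
    (A : homogeneousSubmodule (Fin (n + 1)) Ω d) (l : Mx x) :
    (phiV x V d A l : W) = V (A * lin Ω n l) := rfl

/-- the integral forms -/
def intForms (Ω : Type*) [Field Ω] (n d : ℕ) :
    AddSubgroup (homogeneousSubmodule (Fin (n + 1)) Ω d) where
  carrier := {A | ∀ I, ∃ z : ℤ, coeff I (A : MvPolynomial (Fin (n + 1)) Ω) = z}
  add_mem' := by
    intro A B hA hB I
    obtain ⟨a, ha⟩ := hA I
    obtain ⟨b, hb⟩ := hB I
    exact ⟨a + b, by
      rw [Submodule.coe_add, coeff_add, ha, hb]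
      push_cast
      ring⟩
  zero_mem' := fun I => ⟨0, by simp⟩
  neg_mem' := by
    intro A hA I
    obtain ⟨a, ha⟩ := hA I
    exact ⟨-a, by
      rw [Submodule.coe_neg, coeff_neg, ha]
      push_cast
      ring⟩

theorem mono_mem {d : ℕ} {I : Fin (n + 1) →₀ ℕ} (hI : I.degree = d) :
    (monomial I (1 : Ω)) ∈ homogeneousSubmodule (Fin (n + 1)) Ω d :=
  isHomogeneous_monomial _ hI

/-- a submodule of forms with all monomials is everything -/
theorem top_of_mono {d : ℕ} (P : Submodule Ω (homogeneousSubmodule (Fin (n + 1)) Ω d))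
    (h : ∀ (I : Fin (n + 1) →₀ ℕ) (hI : I.degree = d), (⟨monomial I 1, mono_mem hI⟩ :
      homogeneousSubmodule (Fin (n + 1)) Ω d) ∈ P) : P = ⊤ := by
  rw [eq_top_iff]
  rintro ⟨A, hA⟩ -
  have hA' : A.IsHomogeneous d := hA
  have hdeg : ∀ I ∈ A.support, I.degree = d := fun I hI => by
    have := hA' (mem_support_iff.1 hI)
    rw [Finsupp.degree_eq_weight_one]
    exact this
  have e : (⟨A, hA⟩ : homogeneousSubmodule (Fin (n + 1)) Ω d) =
      ∑ I ∈ A.support.attach, coeff I.1 A • ⟨monomial I.1 1, mono_mem (hdeg I.1 I.2)⟩ := by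
    apply Subtype.ext
    rw [Submodule.coe_sum]
    change A = ∑ I ∈ A.support.attach, coeff I.1 A • monomial I.1 (1 : Ω)
    rw [Finset.sum_attach A.support (fun I => coeff I A • monomial I (1 : Ω))]
    conv_lhs => rw [← support_sum_monomial_coeff A]
    refine Finset.sum_congr rfl fun I _ => ?_
    rw [smul_monomial, smul_eq_mul, mul_one]
  rw [e]
  exact Submodule.sum_mem _ fun I _ => Submodule.smul_mem _ _ (h I.1 (hdeg I.1 I.2))

theorem span_intForms (d : ℕ) :
    Submodule.span Ω (intForms Ω n d : Set (homogeneousSubmodule (Fin (n + 1)) Ω d)) = ⊤ := by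
  apply top_of_mono
  intro I hI
  apply Submodule.subset_span
  intro J
  change ∃ z : ℤ, coeff J (monomial I (1 : Ω)) = z
  rw [coeff_monomial]
  split_ifs
  · exact ⟨1, by simp⟩
  · exact ⟨0, by simp⟩

/-- multiplication of a form of degree `d` by linear forms -/
noncomputable def muB (x : Fin (n + 1) → Ω) (d : ℕ)
    (B : homogeneousSubmodule (Fin (n + 1)) Ω d) :
    Mx x →ₗ[Ω] homogeneousSubmodule (Fin (n + 1)) Ω (d + 1) where
  toFun l := ⟨B * lin Ω n l, by
    have h1 : (B : MvPolynomial (Fin (n + 1)) Ω).IsHomogeneous d := B.2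
    exact h1.mul (lin_hom _)⟩
  map_add' l l' := Subtype.ext (by
    change (B : MvPolynomial (Fin (n + 1)) Ω) * lin Ω n (l + l' : Fin (n + 1) → Ω) = _ + _
    rw [map_add, mul_add])
  map_smul' c l := Subtype.ext (by
    change (B : MvPolynomial (Fin (n + 1)) Ω) * lin Ω n (c • l : Fin (n + 1) → Ω) = c • _
    rw [map_smul, mul_smul_comm])

theorem span_mu {x : Fin (n + 1) → Ω} {j0 : Fin (n + 1)} (hx : x j0 = 1) (d : ℕ) :
    Submodule.span Ω ({(⟨monomial (Finsupp.single j0 (d + 1)) 1,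
      mono_mem (Finsupp.degree_single j0 (d + 1))⟩ :
      homogeneousSubmodule (Fin (n + 1)) Ω (d + 1))} ∪ ⋃ B, Set.range (muB x d B)) = ⊤ := by
  apply top_of_mono
  -- induction on the part of the degree outside `j0`
  suffices h : ∀ (N : ℕ) (I : Fin (n + 1) →₀ ℕ) (hI : I.degree = d + 1), d + 1 - I j0 = N →
      (⟨monomial I 1, mono_mem hI⟩ : homogeneousSubmodule (Fin (n + 1)) Ω (d + 1)) ∈
      Submodule.span Ω ({(⟨monomial (Finsupp.single j0 (d + 1)) 1,
        mono_mem (Finsupp.degree_single j0 (d + 1))⟩ :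
        homogeneousSubmodule (Fin (n + 1)) Ω (d + 1))} ∪ ⋃ B, Set.range (muB x d B)) from
    fun I hI => h _ I hI rfl
  intro N
  induction N with
  | zero =>
    intro I hI hN
    have h1 : I = Finsupp.single j0 (d + 1) := by
      have h2 : I j0 ≤ I.degree := Finsupp.le_degree j0 I
      have h3 : I j0 = d + 1 := by omega
      have h4 : I.degree = ∑ i, I i := Finsupp.degree_eq_sum I
      ext i
      by_cases hi : i = j0
      · rw [hi, h3, Finsupp.single_eq_same]
      · rw [Finsupp.single_eq_of_ne (by tauto)]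
        have h5 : I i + I j0 ≤ ∑ i, I i := by
          rw [← Finset.sum_pair hi]
          exact Finset.sum_le_sum_of_subset (Finset.subset_univ _)
        omega
    subst h1
    exact Submodule.subset_span (Or.inl rfl)
  | succ N ih =>
    intro I hI hN
    have h1 : ∃ i, i ≠ j0 ∧ I i ≠ 0 := by
      by_contra hc
      push Not at hc
      have h4 : I.degree = ∑ i, I i := Finsupp.degree_eq_sum I
      rw [Finset.sum_eq_single j0 (fun i _ hi => hc i hi) (by simp)] at h4
      omega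
    obtain ⟨i, hi, hIi⟩ := h1
    obtain ⟨J, hJ⟩ : ∃ J, I = J + Finsupp.single i 1 := by
      refine ⟨I - Finsupp.single i 1, ?_⟩
      rw [tsub_add_cancel_of_le]
      rw [Finsupp.single_le_iff]
      omega
    subst hJ
    have hJd : J.degree = d := by
      rw [map_add, Finsupp.degree_single] at hI
      omega
    have hJ' : (J + Finsupp.single j0 1).degree = d + 1 := by
      rw [map_add, Finsupp.degree_single, hJd]
    have h5 := ih (J + Finsupp.single j0 1) hJ' (by
      rw [Finsupp.add_apply, Finsupp.single_eq_of_ne (by tauto)] at hN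
      rw [Finsupp.add_apply, Finsupp.single_eq_same]
      omega)
    have hl : (Pi.single i 1 - x i • Pi.single j0 1 : Fin (n + 1) → Ω) ∈ Mx x := by
      rw [mem_Mx]
      have e1 : ∀ j, (Pi.single i 1 - x i • Pi.single j0 1 : Fin (n + 1) → Ω) j * x j =
          (if j = i then x j else 0) - x i * (if j = j0 then x j else 0) := by
        intro j
        simp only [Pi.sub_apply, Pi.smul_apply, Pi.single_apply, smul_eq_mul]
        split_ifs <;> ring
      rw [Finset.sum_congr rfl fun j _ => e1 j, Finset.sum_sub_distrib, ← Finset.mul_sum,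
        Finset.sum_ite_eq' Finset.univ i, Finset.sum_ite_eq' Finset.univ j0]
      simp [hx]
    have h6 : (⟨monomial (J + Finsupp.single i 1) 1, mono_mem hI⟩ :
        homogeneousSubmodule (Fin (n + 1)) Ω (d + 1)) =
        muB x d ⟨monomial J 1, mono_mem hJd⟩ ⟨_, hl⟩ +
        x i • ⟨monomial (J + Finsupp.single j0 1) 1, mono_mem hJ'⟩ := by
      apply Subtype.ext
      change monomial (J + Finsupp.single i 1) (1 : Ω) = monomial J 1 * lin Ω n
        (Pi.single i 1 - x i • Pi.single j0 1) + x i • monomial (J + Finsupp.single j0 1) 1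
      rw [map_sub, map_smul, lin_single, lin_single, one_smul, one_smul, mul_sub,
        mul_smul_comm, X, X, monomial_mul, monomial_mul, mul_one]
      simp
    rw [h6]
    refine Submodule.add_mem _ (Submodule.subset_span (Or.inr ?_)) (Submodule.smul_mem _ _ h5)
    exact Set.mem_iUnion.2 ⟨_, ⟨_, rfl⟩⟩

/-- a functional on `Mx x` is the evaluation at a vector -/
theorem exists_vec {x : Fin (n + 1) → Ω} (f : Mx x →ₗ[Ω] Ω) :
    ∃ u : Fin (n + 1) → Ω, ∀ l : Mx x, f l = ∑ i, (l : Fin (n + 1) → Ω) i * u i := by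
  obtain ⟨g, hg⟩ := f.exists_extend
  refine ⟨fun i => g (Pi.single i 1), fun l => ?_⟩
  have h1 : f l = g l := by rw [← hg]; rfl
  rw [h1]
  conv_lhs => rw [pi_eq_sum_univ (l : Fin (n + 1) → Ω), map_sum]
  refine Finset.sum_congr rfl fun i _ => ?_
  rw [map_smul, smul_eq_mul]
  congr 2
  ext j
  rw [Pi.single_apply]
  simp only [eq_comm]

/-- The classification for forms. -/
theorem atk_forms [CharZero Ω] {x : Fin (n + 1) → Ω} {j0 : Fin (n + 1)} (hx : x j0 = 1) (d : ℕ)
    (V : MvPolynomial (Fin (n + 1)) Ω →ₗ[Ω] W) (hQ : finrank Ω (QV x V (d + 1)) = 3)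
    (hr : ∀ A : MvPolynomial (Fin (n + 1)) Ω, A.IsHomogeneous (d + 1) →
      (∀ I, ∃ z : ℤ, coeff I A = z) → ∀ l : Fin 3 → Fin (n + 1) → Ω,
      (∀ i, ∑ j, l i j * x j = 0) → ¬ LinearIndependent Ω fun i => V (A * lin Ω n (l i))) :
    (∃ u v : Fin (n + 1) → Ω, ∀ A : MvPolynomial (Fin (n + 1)) Ω, A.IsHomogeneous (d + 1) →
      ∀ l : Fin (n + 1) → Ω, ∑ j, l j * x j = 0 → ∑ j, l j * u j = 0 → ∑ j, l j * v j = 0 →
      V (A * lin Ω n l) = 0) ∨
    (∃ (u : Fin (n + 1) → Ω) (q : W), ∀ A : MvPolynomial (Fin (n + 1)) Ω,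
      A.IsHomogeneous (d + 1) → ∀ l : Fin (n + 1) → Ω, ∑ j, l j * x j = 0 →
      ∑ j, l j * u j = 0 → V (A * lin Ω n l) ∈ Submodule.span Ω {q}) := by
  have hr' : ∀ A ∈ intForms Ω n (d + 1), ∀ m : Fin 3 → Mx x,
      ¬ LinearIndependent Ω (fun i => phiV x V (d + 1) A (m i)) := by
    intro A hA m hli
    apply hr A A.2 hA (fun i => m i) (fun i => (m i).2)
    have := hli.map' (QV x V (d + 1)).subtype (Submodule.ker_subtype _)
    exact this
  have hs : Submodule.span Ω {q | ∃ A m, phiV x V (d + 1) A m = q} = ⊤ := by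
    rw [eq_top_iff]
    have h1 : (QV x V (d + 1)) ≤ (Submodule.span Ω {q | ∃ A m, phiV x V (d + 1) A m = q}).map
        (QV x V (d + 1)).subtype := by
      unfold QV
      rw [Submodule.span_le]
      rintro q ⟨A, l, hA, hl, rfl⟩
      exact ⟨phiV x V (d + 1) ⟨A, hA⟩ ⟨l, hl⟩, Submodule.subset_span ⟨_, _, rfl⟩, rfl⟩
    rintro ⟨q, hq⟩ -
    obtain ⟨q', hq', e⟩ := h1 hq
    have : q' = ⟨q, hq⟩ := Subtype.ext e
    rw [← this]
    exact hq'
  rcases atkinson_sym (two_ne_zero) hQ (phiV x V (d + 1)) (intForms Ω n (d + 1))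
    (span_intForms (d + 1)) hr' hs (muB x d) (fun B l l' => Subtype.ext (by
      change V ((B : MvPolynomial (Fin (n + 1)) Ω) * lin Ω n l * lin Ω n l') =
        V ((B : MvPolynomial (Fin (n + 1)) Ω) * lin Ω n l' * lin Ω n l)
      rw [mul_right_comm])) _ (span_mu hx d) with ⟨f, g, h⟩ | ⟨f, q, h⟩
  · left
    obtain ⟨u, hu⟩ := exists_vec f
    obtain ⟨v, hv⟩ := exists_vec g
    refine ⟨u, v, fun A hA l hl hlu hlv => ?_⟩
    have h1 := h ⟨A, hA⟩ ⟨l, hl⟩ (by rw [hu]; exact hlu) (by rw [hv]; exact hlv)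
    exact congrArg Subtype.val h1
  · right
    obtain ⟨u, hu⟩ := exists_vec f
    refine ⟨u, q, fun A hA l hl hlu => ?_⟩
    obtain ⟨c, hc⟩ := Submodule.mem_span_singleton.1
      (h ⟨A, hA⟩ ⟨l, hl⟩ (by rw [hu]; exact hlu))
    exact Submodule.mem_span_singleton.2 ⟨c, congrArg Subtype.val hc⟩

end Pool.Agent.T2.H76
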