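import Pool.Agent.Lib.MP_c7af3c_ag.T2.Iface
import Pool.Agent.Lib.MP_c7af3c_ag.T2.H76.Atk2
import Pool.Agent.Lib.MP_c7af3c_ag.LINES.H75.Gen
import Pool.Agent.Lib.MP_c7af3c_ag.GEN.H12.Reln

/-!
# MP_c7af3c_ag, T2: row ATK (helper76)
-/

set_option autoImplicit false

namespace Pool.Agent.T2.H76

open Module MvPolynomial Pool.Agent.Gen Pool.Agent.Sharp Pool.Agent.Edge

section chart

variable {Ω : Type} [Field Ω]

/-- a vector which vanishes at the indices in `T` is a multiple of a vector with a coordinate 1 -/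
theorem nz (T : Finset (Fin (4 + 1))) (hT : T.card < 5) (w : Fin (4 + 1) → Ω)
    (hw : ∀ t ∈ T, w t = 0) :
    ∃ s, s ∉ T ∧ ∃ w' : Fin (4 + 1) → Ω, w' s = 1 ∧ (∀ t ∈ T, w' t = 0) ∧ ∃ c : Ω, w = c • w' := by
  classical
  by_cases h : w = 0
  · obtain ⟨s, hs⟩ : ∃ s, s ∉ T := by
      by_contra hc
      push Not at hc
      have h1 : T = Finset.univ := Finset.eq_univ_of_forall hc
      rw [h1, Finset.card_univ, Fintype.card_fin] at hT
      omega
    refine ⟨s, hs, Pi.single s 1, by simp, fun t ht => ?_, 0, by rw [h, zero_smul]⟩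
    rw [Pi.single_eq_of_ne]
    rintro rfl
    exact hs ht
  · obtain ⟨s, hs⟩ := Function.ne_iff.1 h
    rw [Pi.zero_apply] at hs
    refine ⟨s, fun h1 => hs (hw s h1), (w s)⁻¹ • w, ?_, fun t ht => ?_, w s, ?_⟩
    · rw [Pi.smul_apply, smul_eq_mul, inv_mul_cancel₀ hs]
    · rw [Pi.smul_apply, hw t ht, smul_zero]
    · rw [smul_smul, mul_inv_cancel₀ hs, one_smul]

/-- a chart of a plane which contains three given vectors -/
theorem chart {x : Fin (4 + 1) → Ω} {j0 : Fin (4 + 1)} (hx : x j0 = 1)
    (u v : Fin (4 + 1) → Ω) :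
    ∃ (t : Fin (2 + 1) → Fin (4 + 1)) (P : Fin (2 + 1) → Fin (4 + 1) → Ω), Cht x j0 t P ∧
      (∃ a : Fin (2 + 1) → Ω, ∀ f, u f = ∑ i, a i * P i f) ∧
      ∃ a : Fin (2 + 1) → Ω, ∀ f, v f = ∑ i, a i * P i f := by
  classical
  obtain ⟨t1, ht1, w1, hw1, hw1', c1, hc1⟩ := nz {j0} (by simp) (u - u j0 • x) (by
    intro t ht
    rw [Finset.mem_singleton.1 ht, Pi.sub_apply, Pi.smul_apply, hx, smul_eq_mul, mul_one, sub_self])
  have hw10 : w1 j0 = 0 := hw1' j0 (Finset.mem_singleton_self _)
  have ht1' : t1 ≠ j0 := fun h => ht1 (by rw [h]; exact Finset.mem_singleton_self _)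
  obtain ⟨t2, ht2, w2, hw2, hw2', c2, hc2⟩ := nz {j0, t1}
    (lt_of_le_of_lt Finset.card_le_two (by norm_num))
    (v - v j0 • x - (v t1 - v j0 * x t1) • w1) (by
    intro t ht
    rcases Finset.mem_insert.1 ht with rfl | ht
    · simp [hx, hw10]
    · rw [Finset.mem_singleton.1 ht]
      simp [hw1])
  have hw20 : w2 j0 = 0 := hw2' j0 (by simp)
  have hw21 : w2 t1 = 0 := hw2' t1 (by simp)
  have ht20 : t2 ≠ j0 := fun h => ht2 (by rw [h]; simp)
  have ht21 : t2 ≠ t1 := fun h => ht2 (by rw [h]; simp)
  set P1 : Fin (4 + 1) → Ω := w1 - w1 t2 • w2 with hP1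
  have p10 : P1 j0 = 0 := by simp [hP1, hw10, hw20]
  have p11 : P1 t1 = 1 := by simp [hP1, hw1, hw21]
  have p12 : P1 t2 = 0 := by simp [hP1, hw2]
  set P0 : Fin (4 + 1) → Ω := x - x t1 • P1 - x t2 • w2 with hP0
  have p00 : P0 j0 = 1 := by simp [hP0, hx, p10, hw20]
  have p01 : P0 t1 = 0 := by simp [hP0, p11, hw21]
  have p02 : P0 t2 = 0 := by simp [hP0, p12, hw2]
  have hxP : ∀ f, x f = P0 f * x j0 + P1 f * x t1 + w2 f * x t2 := by
    intro f
    rw [hx]
    simp only [hP0, Pi.sub_apply, Pi.smul_apply, smul_eq_mul]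
    ring
  have hu : ∀ f, u f = u j0 * x f + c1 * w1 f := by
    intro f
    have := congrFun hc1 f
    simp only [Pi.sub_apply, Pi.smul_apply, smul_eq_mul] at this
    linear_combination this
  have hv : ∀ f, v f = v j0 * x f + (v t1 - v j0 * x t1) * w1 f + c2 * w2 f := by
    intro f
    have := congrFun hc2 f
    simp only [Pi.sub_apply, Pi.smul_apply, smul_eq_mul] at this
    linear_combination this
  have hw1P : ∀ f, w1 f = P1 f + w1 t2 * w2 f := by
    intro f
    simp only [hP1, Pi.sub_apply, Pi.smul_apply, smul_eq_mul]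
    ring
  refine ⟨![j0, t1, t2], ![P0, P1, w2], ⟨rfl, ?_, ?_⟩, ⟨![u j0 * x j0, u j0 * x t1 + c1,
    u j0 * x t2 + c1 * w1 t2], ?_⟩, ⟨![v j0 * x j0, v j0 * x t1 + (v t1 - v j0 * x t1),
    v j0 * x t2 + (v t1 - v j0 * x t1) * w1 t2 + c2], ?_⟩⟩
  · intro i j
    fin_cases i <;> fin_cases j <;>
      simp [p00, p01, p02, p10, p11, p12, hw20, hw21, hw2]
  · intro f
    rw [Fin.sum_univ_three]
    exact hxP f
  · intro f
    rw [Fin.sum_univ_three]
    simp only [Matrix.cons_val_zero, Matrix.cons_val_one, Matrix.cons_val]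
    rw [hu f, hw1P f]
    linear_combination u j0 * hxP f
  · intro f
    rw [Fin.sum_univ_three]
    simp only [Matrix.cons_val_zero, Matrix.cons_val_one, Matrix.cons_val]
    rw [hv f, hw1P f]
    linear_combination v j0 * hxP f

end chart

section row

variable {Ω : Type} [Field Ω]

theorem V_j0 (D : D6 Ω) {x : Fin (4 + 1) → Ω} {j0 : Fin (4 + 1)} (hx : x j0 = 1)
    (G : MvPolynomial (Fin (4 + 1)) Ω) : D.V x 0 G j0 = 0 := by
  rw [DSys.V_apply]
  refine Finset.sum_eq_zero fun I _ => ?_
  rw [hx]
  simp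

/-- linear forms which vanish at `x` in terms of the `X_i - x_i X_j0` -/
theorem lin_eq {x : Fin (4 + 1) → Ω} (j0 : Fin (4 + 1)) (l : Fin (4 + 1) → Ω)
    (hl : ∑ j, l j * x j = 0) : lin Ω 4 l = ∑ i, l i • Sharp.lf x j0 i := by
  rw [lin_apply]
  have h1 : ∑ i, l i • Sharp.lf x j0 i = ∑ i, l i • X i - C (∑ i, l i * x i) * X j0 := by
    rw [map_sum, Finset.sum_mul, ← Finset.sum_sub_distrib]
    refine Finset.sum_congr rfl fun i _ => ?_
    unfold Sharp.lf
    rw [smul_sub, smul_eq_C_mul, smul_eq_C_mul, map_mul]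
    ring
  rw [h1, hl, map_zero, zero_mul, sub_zero]

/-- the forms `X_i - x_i X_j0` are forms which vanish at `x` -/
theorem lf_eq {x : Fin (4 + 1) → Ω} {j0 : Fin (4 + 1)} (hx : x j0 = 1) (i : Fin (4 + 1)) :
    ∃ l ∈ Mx x, Sharp.lf x j0 i = lin Ω 4 l := by
  refine ⟨Pi.single i 1 - x i • Pi.single j0 1, ?_, ?_⟩
  · rw [mem_Mx]
    have e1 : ∀ j, (Pi.single i 1 - x i • Pi.single j0 1 : Fin (4 + 1) → Ω) j * x j =
        (if j = i then x j else 0) - x i * (if j = j0 then x j else 0) := by
      intro j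
      simp only [Pi.sub_apply, Pi.smul_apply, Pi.single_apply, smul_eq_mul]
      split_ifs <;> ring
    rw [Finset.sum_congr rfl fun j _ => e1 j, Finset.sum_sub_distrib, ← Finset.mul_sum,
      Finset.sum_ite_eq' Finset.univ i, Finset.sum_ite_eq' Finset.univ j0]
    simp [hx]
  · rw [map_sub, map_smul, lin_single, lin_single, one_smul, one_smul]
    unfold Sharp.lf
    rw [smul_eq_C_mul]

/-- `V(G)` for the forms `G` which vanish at `x` -/
theorem V_mem_QV (D : D6 Ω) {x : Fin (4 + 1) → Ω} {j0 : Fin (4 + 1)} (hx : x j0 = 1)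
    {G : MvPolynomial (Fin (4 + 1)) Ω} (hG : G.IsHomogeneous 6) (h0 : eval x G = 0) :
    D.V x 0 G ∈ QV x (D.V x 0) 5 := by
  have h1 : (⟨G, hG⟩ : homogeneousSubmodule (Fin (4 + 1)) Ω (5 + 1)) ∈ Submodule.span Ω
      ({(⟨monomial (Finsupp.single j0 (5 + 1)) 1,
      mono_mem (Finsupp.degree_single j0 (5 + 1))⟩ :
      homogeneousSubmodule (Fin (4 + 1)) Ω (5 + 1))} ∪ ⋃ B, Set.range (muB x 5 B)) := by
    rw [span_mu hx 5]
    trivial
  -- every element is `c X_j0^6` plus an element of the ideal
  have h2 : ∀ H ∈ Submodule.span Ω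
      ({(⟨monomial (Finsupp.single j0 (5 + 1)) 1,
      mono_mem (Finsupp.degree_single j0 (5 + 1))⟩ :
      homogeneousSubmodule (Fin (4 + 1)) Ω (5 + 1))} ∪ ⋃ B, Set.range (muB x 5 B)),
      ∃ c : Ω, eval x (H : MvPolynomial (Fin (4 + 1)) Ω) = c ∧
        D.V x 0 (H : MvPolynomial (Fin (4 + 1)) Ω) -
          c • D.V x 0 (monomial (Finsupp.single j0 (5 + 1)) 1) ∈ QV x (D.V x 0) 5 := by
    intro H hH
    induction hH using Submodule.span_induction with
    | mem H hH =>
      rcases hH with rfl | hH
      · refine ⟨1, ?_, ?_⟩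
        · rw [eval_monomial]
          simp [hx]
        · rw [one_smul, sub_self]
          exact zero_mem _
      · obtain ⟨B, l, rfl⟩ := Set.mem_iUnion.1 hH
        refine ⟨0, ?_, ?_⟩
        · change eval x ((B : MvPolynomial (Fin (4 + 1)) Ω) * lin Ω 4 l) = 0
          rw [map_mul, lin_apply, map_sum]
          have h3 : ∑ i, eval x ((l : Fin (4 + 1) → Ω) i • X i) = 0 := by
            have h4 : ∑ i, (l : Fin (4 + 1) → Ω) i * x i = 0 := l.2
            rw [← h4]
            refine Finset.sum_congr rfl fun i _ => ?_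
            rw [smul_eval, eval_X]
          rw [h3, mul_zero]
        · rw [zero_smul, sub_zero]
          exact mem_QV B.2 l.2
    | zero => exact ⟨0, by simp, by simp⟩
    | add H H' _ _ h h' =>
      obtain ⟨c, hc, hc'⟩ := h
      obtain ⟨e, he, he'⟩ := h'
      refine ⟨c + e, ?_, ?_⟩
      · rw [Submodule.coe_add, map_add, hc, he]
      · rw [Submodule.coe_add, map_add, add_smul]
        have := Submodule.add_mem _ hc' he'
        convert this using 1
        abel
    | smul a H _ h =>
      obtain ⟨c, hc, hc'⟩ := h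
      refine ⟨a * c, ?_, ?_⟩
      · rw [Submodule.coe_smul, smul_eval, hc]
      · rw [Submodule.coe_smul, map_smul, mul_smul, ← smul_sub]
        exact Submodule.smul_mem _ _ hc'
  obtain ⟨c, hc, hc'⟩ := h2 _ h1
  rw [← hc] at hc'
  change D.V x 0 G - eval x G • _ ∈ _ at hc'
  rwa [h0, zero_smul, sub_zero] at hc'

theorem relV {D : D6 Ω} {x : Fin (4 + 1) → Ω} (h0 : eval x (D.F 0) = 0)
    {G : MvPolynomial (Fin (4 + 1)) Ω} (hG : G.IsHomogeneous 6) :
    ∑ p, eval x (pderiv p (D.F 0)) * D.V x 0 G p = - eval x G := by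
  have h := Gen.H12.reln Ω 4 1 (fun _ => 6) D x (fun m => by
    rw [Subsingleton.elim m 0]; exact h0) 0 0 G hG
  rwa [if_pos rfl] at h

theorem V_XF {D : D6 Ω} {x : Fin (4 + 1) → Ω} {j0 : Fin (4 + 1)} (hx : x j0 = 1)
    (hw : W0 D x) {p : Fin (4 + 1)} (hp : p ≠ j0) :
    D.V x 0 (X j0 * pderiv p (D.F 0)) = -Pi.single p 1 := by
  have h1 := hw p j0
  obtain ⟨c, hc⟩ := Submodule.mem_span_singleton.1 h1
  unfold WT at hc
  rw [VT_apply, Fin.sum_univ_one, hx, one_smul] at hc
  have h2 := congrFun hc j0
  rw [Pi.smul_apply, hx, Pi.add_apply, V_j0 D hx, Pi.single_eq_of_ne (Ne.symm hp)] at h2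
  have hc0 : c = 0 := by simpa using h2
  rw [hc0, zero_smul] at hc
  exact eq_neg_of_add_eq_zero_right hc.symm

/-- the tangent space -/
theorem QV_eq {D : D6 Ω} {x : Fin (4 + 1) → Ω} {j0 : Fin (4 + 1)} (hx : x j0 = 1)
    (h0 : eval x (D.F 0) = 0) (hw : W0 D x) (v : Fin (4 + 1) → Ω) :
    v ∈ QV x (D.V x 0) 5 ↔ v j0 = 0 ∧ ∑ p, eval x (pderiv p (D.F 0)) * v p = 0 := by
  constructor
  · intro hv
    unfold QV at hv
    induction hv using Submodule.span_induction with
    | mem v hv =>
      obtain ⟨A, l, hA, hl, rfl⟩ := hv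
      refine ⟨V_j0 D hx _, ?_⟩
      have hh : (A * lin Ω 4 l).IsHomogeneous 6 := hA.mul (lin_hom l)
      rw [relV h0 hh, map_mul, lin_apply, map_sum]
      have h3 : ∑ i, eval x (l i • X i) = 0 := by
        have h4 : ∑ i, l i * x i = 0 := hl
        rw [← h4]
        refine Finset.sum_congr rfl fun i _ => ?_
        rw [smul_eval, eval_X]
      rw [h3, mul_zero, neg_zero]
    | zero => simp
    | add v w _ _ h1 h2 =>
      refine ⟨by rw [Pi.add_apply, h1.1, h2.1, add_zero], ?_⟩
      simp only [Pi.add_apply, mul_add, Finset.sum_add_distrib, h1.2, h2.2, add_zero]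
    | smul a v _ h1 =>
      refine ⟨by rw [Pi.smul_apply, h1.1, smul_zero], ?_⟩
      have : ∀ p, eval x (pderiv p (D.F 0)) * (a • v) p =
          a * (eval x (pderiv p (D.F 0)) * v p) := fun p => by
        rw [Pi.smul_apply, smul_eq_mul]; ring
      rw [Finset.sum_congr rfl fun p _ => this p, ← Finset.mul_sum, h1.2, mul_zero]
  · rintro ⟨h1, h2⟩
    set G : MvPolynomial (Fin (4 + 1)) Ω := -∑ p, v p • (X j0 * pderiv p (D.F 0)) with hG
    have hF : (D.F 0).IsHomogeneous 6 := D.hom 0
    have hGh : G.IsHomogeneous 6 := by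
      rw [hG]
      refine IsHomogeneous.neg (IsHomogeneous.sum _ _ _ fun p _ => ?_)
      rw [smul_eq_C_mul]
      have h3 : (pderiv p (D.F 0)).IsHomogeneous 5 := hF.pderiv
      have h4 := (isHomogeneous_C (Fin (4 + 1)) (v p)).mul
        ((isHomogeneous_X Ω j0).mul h3)
      simpa using h4
    have hGe : eval x G = 0 := by
      rw [hG, map_neg, map_sum, neg_eq_zero, ← h2]
      refine Finset.sum_congr rfl fun p _ => ?_
      rw [smul_eval, map_mul, eval_X, hx, one_mul, mul_comm]
    have hGV : D.V x 0 G = v := by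
      rw [hG, map_neg, map_sum]
      ext f
      rw [Pi.neg_apply, Finset.sum_apply]
      by_cases hf : f = j0
      · rw [hf, h1, neg_eq_zero]
        refine Finset.sum_eq_zero fun p _ => ?_
        rw [V_j0 D hx]
      · rw [Finset.sum_eq_single f]
        · rw [map_smul, V_XF hx hw hf]
          simp
        · intro p _ hp
          by_cases hpj : p = j0
          · rw [hpj, h1, zero_smul, map_zero, Pi.zero_apply]
          · rw [map_smul, V_XF hx hw hpj]
            simp [Ne.symm hp]
        · intro h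
          exact absurd (Finset.mem_univ f) h
    rw [← hGV]
    exact V_mem_QV D hx hGh hGe

theorem finrank_QV {D : D6 Ω} {x : Fin (4 + 1) → Ω} {j0 : Fin (4 + 1)} (hx : x j0 = 1)
    (h0 : eval x (D.F 0) = 0) (hw : W0 D x) : finrank Ω (QV x (D.V x 0) 5) = 3 := by
  -- some partial derivative is not zero
  obtain ⟨p, hp, hp0⟩ : ∃ p, p ≠ j0 ∧ eval x (pderiv p (D.F 0)) ≠ 0 := by
    by_contra hc
    push Not at hc
    have hX : (X j0 ^ 6 : MvPolynomial (Fin (4 + 1)) Ω).IsHomogeneous 6 := by
      simpa using (isHomogeneous_X Ω j0).pow 6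
    have h1 := relV h0 hX
    have hXe : eval x (X j0 ^ 6 : MvPolynomial (Fin (4 + 1)) Ω) = 1 := by
      rw [map_pow, eval_X, hx, one_pow]
    rw [hXe, Finset.sum_eq_zero] at h1
    · exact one_ne_zero (neg_eq_zero.1 h1.symm)
    · intro p _
      by_cases hp : p = j0
      · rw [hp, V_j0 D hx, mul_zero]
      · rw [hc p hp, zero_mul]
  let Φ : (Fin (4 + 1) → Ω) →ₗ[Ω] (Fin 2 → Ω) := LinearMap.pi ![LinearMap.proj j0,
    ∑ p, eval x (pderiv p (D.F 0)) • LinearMap.proj p]
  have hΦ0 : ∀ v, Φ v 0 = v j0 := fun v => rfl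
  have hΦ1 : ∀ v, Φ v 1 = ∑ p, eval x (pderiv p (D.F 0)) * v p := by
    intro v
    change (∑ p, eval x (pderiv p (D.F 0)) • LinearMap.proj p :
      (Fin (4 + 1) → Ω) →ₗ[Ω] Ω) v = _
    rw [LinearMap.sum_apply]
    rfl
  have hker : QV x (D.V x 0) 5 = LinearMap.ker Φ := by
    ext v
    rw [QV_eq hx h0 hw, LinearMap.mem_ker]
    constructor
    · rintro ⟨h1, h2⟩
      ext i
      fin_cases i
      · exact h1
      · exact (hΦ1 v).trans h2
    · intro h
      have e0 := hΦ0 v
      have e1 := hΦ1 v
      rw [h] at e0 e1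
      exact ⟨e0.symm, e1.symm⟩
  have hsurj : Function.Surjective Φ := by
    intro w
    refine ⟨w 0 • Pi.single j0 1 + ((w 1 - w 0 * eval x (pderiv j0 (D.F 0))) /
      eval x (pderiv p (D.F 0))) • Pi.single p 1, ?_⟩
    have e1 : ∀ i, (Φ (Pi.single i 1)) 1 = eval x (pderiv i (D.F 0)) := by
      intro i
      rw [hΦ1, Finset.sum_eq_single i]
      · simp
      · intro j _ hj
        rw [Pi.single_eq_of_ne hj, mul_zero]
      · intro h
        exact absurd (Finset.mem_univ i) h
    ext i
    rw [map_add, map_smul, map_smul]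
    fin_cases i
    · change w 0 * (Φ (Pi.single j0 1)) 0 + _ * (Φ (Pi.single p 1)) 0 = w 0
      rw [hΦ0, hΦ0, Pi.single_eq_same, Pi.single_eq_of_ne (Ne.symm hp)]
      ring
    · change w 0 * (Φ (Pi.single j0 1)) 1 + _ * (Φ (Pi.single p 1)) 1 = w 1
      rw [e1, e1]
      field_simp
      ring
  have h2 := LinearMap.finrank_range_add_finrank_ker Φ
  rw [LinearMap.range_eq_top.2 hsurj, finrank_top, ← hker, finrank_fin_fun, finrank_fin_fun] at h2
  omega

/-- row ATK -/
theorem atk : AtkStatement := by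
  intro Ω _ _ k D x j0 hx h0 hw hr
  have hrank : ∀ A : MvPolynomial (Fin (4 + 1)) Ω, A.IsHomogeneous (4 + 1) →
      (∀ I, ∃ z : ℤ, coeff I A = z) → ∀ l : Fin 3 → Fin (4 + 1) → Ω,
      (∀ i, ∑ j, l i j * x j = 0) →
      ¬ LinearIndependent Ω fun i => D.V x 0 (A * lin Ω 4 (l i)) := by
    intro A hA hint l hl hli
    have hAk : Fk k 5 A := ⟨hA, fun I => by
      obtain ⟨z, hz⟩ := hint I
      rw [hz]
      exact intCast_mem k z⟩
    have h1 := hr A hAk
    have hmem : ∀ i, D.V x 0 (A * lin Ω 4 (l i)) ∈ EA D x j0 A := by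
      intro i
      rw [lin_eq j0 (l i) (hl i), Finset.mul_sum, map_sum]
      refine Submodule.sum_mem _ fun q _ => ?_
      rw [mul_smul_comm, map_smul]
      exact Submodule.smul_mem _ _ (Submodule.subset_span (Or.inr ⟨q, rfl⟩))
    have hx' : x ∈ EA D x j0 A := Submodule.subset_span (Or.inl (Or.inl rfl))
    have hz : Submodule.span Ω (Set.range fun i => D.V x 0 (A * lin Ω 4 (l i))) ≤
        LinearMap.ker (LinearMap.proj j0 : (Fin (4 + 1) → Ω) →ₗ[Ω] Ω) := by
      rw [Submodule.span_le]
      rintro _ ⟨i, rfl⟩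
      exact V_j0 D hx _
    have hli4 : LinearIndependent Ω
        (Fin.cons x (fun i => D.V x 0 (A * lin Ω 4 (l i))) : Fin 4 → Fin (4 + 1) → Ω) := by
      rw [linearIndependent_finCons]
      refine ⟨hli, fun hc => ?_⟩
      have h3 : x j0 = 0 := hz hc
      rw [hx] at h3
      exact one_ne_zero h3
    have h4 := finrank_span_eq_card hli4
    have h5 : Submodule.span Ω (Set.range
        (Fin.cons x (fun i => D.V x 0 (A * lin Ω 4 (l i))) : Fin 4 → Fin (4 + 1) → Ω)) ≤
        EA D x j0 A := by
      rw [Submodule.span_le]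
      rintro _ ⟨i, rfl⟩
      refine Fin.cases ?_ (fun i => ?_) i
      · exact hx'
      · exact hmem i
    have h6 := Submodule.finrank_mono h5
    rw [h4, Fintype.card_fin] at h6
    omega
  rcases atk_forms hx 4 (D.V x 0) (finrank_QV hx h0 hw) hrank with ⟨u, v, h⟩ | ⟨u, q, h⟩
  · right
    obtain ⟨t, P, hch, ⟨a, ha⟩, ⟨b, hb⟩⟩ := chart hx u v
    refine ⟨t, P, hch, fun A hA f => ?_⟩
    set l : Fin (4 + 1) → Ω := Pi.single f 1 - ∑ i, P i f • Pi.single (t i) 1 with hl
    have hlin : lin Ω 4 l = lam t P f := by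
      rw [hl, map_sub, map_sum, lin_single, one_smul]
      unfold lam
      congr 1
      refine Finset.sum_congr rfl fun i _ => ?_
      rw [map_smul, lin_single, one_smul, smul_eq_C_mul]
    have hdot : ∀ w : Fin (4 + 1) → Ω, ∑ j, l j * w j = w f - ∑ i, P i f * w (t i) := by
      intro w
      have e1 : ∀ j, l j * w j = (if j = f then w j else 0) -
          ∑ i, P i f * (if j = t i then w j else 0) := by
        intro j
        rw [hl]
        simp only [Pi.sub_apply, Finset.sum_apply, Pi.smul_apply, Pi.single_apply, smul_eq_mul,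
          sub_mul, Finset.sum_mul]
        congr 1
        · split_ifs <;> simp
        · refine Finset.sum_congr rfl fun i _ => ?_
          split_ifs <;> ring
      rw [Finset.sum_congr rfl fun j _ => e1 j, Finset.sum_sub_distrib,
        Finset.sum_ite_eq' Finset.univ f, Finset.sum_comm]
      simp only [Finset.mem_univ, if_true]
      congr 1
      refine Finset.sum_congr rfl fun i _ => ?_
      rw [← Finset.mul_sum, Finset.sum_ite_eq' Finset.univ (t i)]
      simp
    have hP : ∀ j, ∑ f', l f' * P j f' = 0 := by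
      intro j
      rw [hdot]
      have e2 : ∑ i, P i f * P j (t i) = P j f := by
        rw [Finset.sum_eq_single j]
        · rw [hch.Pt, if_pos rfl, mul_one]
        · intro i _ hi
          rw [hch.Pt, if_neg (Ne.symm hi), mul_zero]
        · intro h
          exact absurd (Finset.mem_univ j) h
      rw [e2, sub_self]
    have hspan : ∀ w : Fin (4 + 1) → Ω, (∃ a : Fin (2 + 1) → Ω, ∀ f, w f = ∑ i, a i * P i f) →
        ∑ j, l j * w j = 0 := by
      rintro w ⟨a, ha⟩
      have e3 : ∀ j, l j * w j = ∑ i, a i * (l j * P i j) := by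
        intro j
        rw [ha j, Finset.mul_sum]
        exact Finset.sum_congr rfl fun i _ => by ring
      rw [Finset.sum_congr rfl fun j _ => e3 j, Finset.sum_comm]
      refine Finset.sum_eq_zero fun i _ => ?_
      rw [← Finset.mul_sum, hP, mul_zero]
    have hxs : ∑ j, l j * x j = 0 := hspan x ⟨fun i => x (t i), fun f => by
      rw [hch.xP f]
      exact Finset.sum_congr rfl fun i _ => mul_comm _ _⟩
    rw [← hlin]
    exact h A hA l hxs (hspan u ⟨a, ha⟩) (hspan v ⟨b, hb⟩)
  · left
    obtain ⟨t1, ht1, y, hy, hy', c1, hc1⟩ := nz {j0} (by simp) (u - u j0 • x) (by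
      intro t ht
      rw [Finset.mem_singleton.1 ht, Pi.sub_apply, Pi.smul_apply, hx, smul_eq_mul, mul_one,
        sub_self])
    have hy0 : y j0 = 0 := hy' j0 (Finset.mem_singleton_self _)
    have hu : ∀ f, u f = u j0 * x f + c1 * y f := by
      intro f
      have := congrFun hc1 f
      simp only [Pi.sub_apply, Pi.smul_apply, smul_eq_mul] at this
      linear_combination this
    refine ⟨y, ?_, ?_⟩
    · rw [LinearIndependent.pair_iff]
      intro s r hsr
      have e1 := congrFun hsr j0
      simp only [Pi.add_apply, Pi.smul_apply, smul_eq_mul, hx, hy0, mul_one, mul_zero, add_zero,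
        Pi.zero_apply] at e1
      have e2 := congrFun hsr t1
      simp only [Pi.add_apply, Pi.smul_apply, smul_eq_mul, hy, e1, zero_mul, zero_add, mul_one,
        Pi.zero_apply] at e2
      exact ⟨e1, e2⟩
    · have hE : Lines.E1 D x y ≤ Submodule.span Ω {x, q} := by
        unfold Lines.E1
        rw [Submodule.span_le]
        rintro w ((hw1 | hw1) | hw1)
        · rw [Set.mem_singleton_iff.1 hw1]
          exact Submodule.subset_span (by simp)
        · obtain ⟨p, p', rfl⟩ := hw1
          have h3 : Submodule.span Ω {x} ≤ Submodule.span Ω {x, q} :=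
            Submodule.span_mono (by simp)
          exact h3 (hw p p')
        · obtain ⟨G, hG, hG', rfl⟩ := hw1
          rw [VT_apply, Fin.sum_univ_one]
          have hpl : ∃ i j, Sharp.plu x y i j ≠ 0 := ⟨j0, t1, by
            unfold Sharp.plu
            rw [hx, hy, hy0]
            simp⟩
          have h4 := Lines.H75.mem_NN hpl (hG 0) (hG' 0)
          unfold Lines.H75.NN at h4
          have h7 : Submodule.span Ω {q} ≤ Submodule.span Ω {x, q} :=
            Submodule.span_mono (by simp)
          apply h7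
          generalize G 0 = P0 at h4
          induction h4 using Submodule.span_induction with
          | mem P hP =>
            obtain ⟨J, i, j, k', hJ, rfl⟩ := hP
            have hh : Sharp.hT x y i j k' = lin Ω 4 (Sharp.plu x y i j • Pi.single k' 1 -
                Sharp.plu x y i k' • Pi.single j 1 + Sharp.plu x y j k' • Pi.single i 1) := by
              rw [map_add, map_sub, map_smul, map_smul, map_smul, lin_single, lin_single,
                lin_single, one_smul, one_smul, one_smul]
              unfold Sharp.hT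
              rw [smul_eq_C_mul, smul_eq_C_mul, smul_eq_C_mul]
            have hd : ∀ w : Fin (4 + 1) → Ω, ∑ f, (Sharp.plu x y i j • Pi.single k' 1 -
                Sharp.plu x y i k' • Pi.single j 1 + Sharp.plu x y j k' • Pi.single i 1 :
                Fin (4 + 1) → Ω) f * w f = Sharp.plu x y i j * w k' - Sharp.plu x y i k' * w j +
                Sharp.plu x y j k' * w i := by
              intro w
              have e1 : ∀ f, (Sharp.plu x y i j • Pi.single k' 1 -
                Sharp.plu x y i k' • Pi.single j 1 + Sharp.plu x y j k' • Pi.single i 1 :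
                Fin (4 + 1) → Ω) f * w f =
                Sharp.plu x y i j * (if f = k' then w f else 0) -
                Sharp.plu x y i k' * (if f = j then w f else 0) +
                Sharp.plu x y j k' * (if f = i then w f else 0) := by
                intro f
                simp only [Pi.add_apply, Pi.sub_apply, Pi.smul_apply, Pi.single_apply,
                  smul_eq_mul]
                split_ifs <;> ring
              rw [Finset.sum_congr rfl fun f _ => e1 f, Finset.sum_add_distrib,
                Finset.sum_sub_distrib, ← Finset.mul_sum, ← Finset.mul_sum, ← Finset.mul_sum,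
                Finset.sum_ite_eq' Finset.univ k', Finset.sum_ite_eq' Finset.univ j,
                Finset.sum_ite_eq' Finset.univ i]
              simp
            have hJ5 : (monomial J (1 : Ω)).IsHomogeneous (4 + 1) :=
              isHomogeneous_monomial _ (by
                have : J.degree + 1 = 6 := hJ
                omega)
            rw [hh]
            have hx0 : Sharp.plu x y i j * x k' - Sharp.plu x y i k' * x j +
                Sharp.plu x y j k' * x i = 0 := by
              unfold Sharp.plu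
              ring
            have hy0' : Sharp.plu x y i j * y k' - Sharp.plu x y i k' * y j +
                Sharp.plu x y j k' * y i = 0 := by
              unfold Sharp.plu
              ring
            refine h _ hJ5 _ (by rw [hd]; exact hx0) ?_
            rw [hd]
            have u1 := hu k'
            have u2 := hu j
            have u3 := hu i
            generalize u j0 = uj at u1 u2 u3
            rw [u1, u2, u3]
            linear_combination uj * hx0 + c1 * hy0'
          | zero =>
            rw [map_zero]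
            exact zero_mem _
          | add P P' _ _ h8 h9 =>
            rw [map_add]
            exact Submodule.add_mem _ h8 h9
          | smul a P _ h8 =>
            rw [map_smul]
            exact Submodule.smul_mem _ _ h8
      have h5 := Submodule.finrank_mono hE
      have h6 : finrank Ω (Submodule.span Ω ({x, q} : Set (Fin (4 + 1) → Ω))) ≤ 2 := by
        classical
        have := finrank_span_finset_le_card (R := Ω) ({x, q} : Finset (Fin (4 + 1) → Ω))
        rw [Finset.coe_insert, Finset.coe_singleton] at this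
        exact this.trans Finset.card_le_two
      exact h5.trans h6

end row

end Pool.Agent.T2.H76
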