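import Mathlib

/-!
# Spaces of linear maps of rank at most 2 into a space of dimension 3

`rank_one`: additive groups of linear maps of rank at most 1.
`atkinson`: additive groups of linear maps `M -> Q`, `dim Q = 3`, of rank at most 2, whose images
span `Q`: (a) all vanish on a subspace of codimension 2; (c) all map a subspace of codimension 1
into one line; (d) skew type, `phi_A(m) = a(A) x n(m)`.
`atkinson_sym`: with the symmetry `phi_(lB) l' = phi_(l'B) l` the skew type does not occur.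
-/

set_option autoImplicit false

namespace Pool.Agent.T2.H76

open Module

section rankone

variable {Ω K Q S : Type*} [Field Ω] [AddCommGroup K] [Module Ω K] [AddCommGroup Q] [Module Ω Q]
  [AddCommGroup S]

theorem dep2 {u v : Q} (h : ¬ LinearIndependent Ω ![u, v]) (hu : u ≠ 0) :
    v ∈ Submodule.span Ω {u} := by
  rw [LinearIndependent.pair_iff' hu] at h
  push Not at h
  obtain ⟨a, ha⟩ := h
  exact Submodule.mem_span_singleton.2 ⟨a, ha⟩

theorem li2 {u v : Q} (hu : u ≠ 0) (h : v ∉ Submodule.span Ω {u}) :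
    LinearIndependent Ω ![u, v] := by
  by_contra hc
  exact h (dep2 hc hu)

theorem span_swap {u v : Q} (hv : v ≠ 0) (h : v ∈ Submodule.span Ω {u}) :
    u ∈ Submodule.span Ω {v} := by
  obtain ⟨a, ha⟩ := Submodule.mem_span_singleton.1 h
  have ha0 : a ≠ 0 := by
    rintro rfl
    exact hv (by rw [← ha, zero_smul])
  refine Submodule.mem_span_singleton.2 ⟨a⁻¹, ?_⟩
  rw [← ha, smul_smul, inv_mul_cancel₀ ha0, one_smul]

theorem span_trans {u v w : Q} (hv : v ∈ Submodule.span Ω {u}) (hw : w ∈ Submodule.span Ω {v}) :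
    w ∈ Submodule.span Ω {u} := by
  have h1 : Submodule.span Ω {v} ≤ Submodule.span Ω {u} := by
    rw [Submodule.span_singleton_le_iff_mem]
    exact hv
  exact h1 hw

/-- additive groups of linear maps of rank at most 1 -/
theorem rank_one (C : S →+ (K →ₗ[Ω] Q))
    (hr : ∀ A m m', ¬ LinearIndependent Ω ![C A m, C A m']) :
    (∃ q : Q, ∀ A m, C A m ∈ Submodule.span Ω {q}) ∨
    ∃ (κ : K →ₗ[Ω] Ω) (m₁ : K) (A₁ A₂ : S), κ m₁ = 1 ∧ (∀ A m, C A m = κ m • C A m₁) ∧
      LinearIndependent Ω ![C A₁ m₁, C A₂ m₁] := by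
  by_cases h0 : ∀ A m, C A m = 0
  · left
    exact ⟨0, fun A m => by rw [h0]; exact zero_mem _⟩
  push Not at h0
  obtain ⟨A₁, m₁, h1⟩ := h0
  by_cases h2 : ∀ A m, C A m ∈ Submodule.span Ω {C A₁ m₁}
  · left
    exact ⟨_, h2⟩
  push Not at h2
  obtain ⟨A₂, m₂, h2⟩ := h2
  right
  obtain ⟨f, hf⟩ := Module.Projective.exists_dual_eq_one Ω h1
  have hk1 : ∀ m, C A₁ m = f (C A₁ m) • C A₁ m₁ := by
    intro m
    obtain ⟨a, ha⟩ := Submodule.mem_span_singleton.1 (dep2 (hr A₁ m₁ m) h1)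
    rw [← ha, map_smul, hf, smul_eq_mul, mul_one]
  -- the kernel of the functional is killed by `A₂`
  have hk2 : ∀ m, f (C A₁ m) = 0 → C A₂ m = 0 := by
    intro m hm
    by_contra hu
    have e1 : C A₁ m = 0 := by rw [hk1 m, hm, zero_smul]
    have e2 : C (A₁ + A₂) m = C A₂ m := by
      rw [map_add, LinearMap.add_apply, e1, zero_add]
    have d1 : C A₂ m₁ ∈ Submodule.span Ω {C A₂ m} := dep2 (hr A₂ m m₁) hu
    have d2 : C A₂ m₂ ∈ Submodule.span Ω {C A₂ m} := dep2 (hr A₂ m m₂) hu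
    have d3 : C A₁ m₁ + C A₂ m₁ ∈ Submodule.span Ω {C A₂ m} := by
      have := dep2 (hr (A₁ + A₂) m m₁) (by rw [e2]; exact hu)
      rwa [e2, map_add, LinearMap.add_apply] at this
    have d4 : C A₁ m₁ ∈ Submodule.span Ω {C A₂ m} := by
      have := Submodule.sub_mem _ d3 d1
      rwa [add_sub_cancel_right] at this
    exact h2 (span_trans (span_swap h1 d4) d2)
  have hk2' : ∀ m, C A₂ m = f (C A₁ m) • C A₂ m₁ := by
    intro m
    have h3 := hk2 (m - f (C A₁ m) • m₁) (by
      rw [map_sub, map_sub, map_smul, map_smul, hf, smul_eq_mul, mul_one, sub_self])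
    rw [map_sub, map_smul, sub_eq_zero] at h3
    exact h3
  have h4 : C A₂ m₁ ∉ Submodule.span Ω {C A₁ m₁} := by
    intro h5
    apply h2
    rw [hk2' m₂]
    exact Submodule.smul_mem _ _ h5
  have h5 : C A₂ m₁ ≠ 0 := fun h => h4 (by rw [h]; exact zero_mem _)
  have hk3 : ∀ A m, f (C A₁ m) = 0 → C A m = 0 := by
    intro A m hm
    by_contra hu
    have e1 : C A₁ m = 0 := by rw [hk1 m, hm, zero_smul]
    have e2 : C A₂ m = 0 := hk2 m hm
    have d0 : C A m₁ ∈ Submodule.span Ω {C A m} := dep2 (hr A m m₁) hu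
    have d1 : C A₁ m₁ ∈ Submodule.span Ω {C A m} := by
      have e3 : C (A₁ + A) m = C A m := by rw [map_add, LinearMap.add_apply, e1, zero_add]
      have := dep2 (hr (A₁ + A) m m₁) (by rw [e3]; exact hu)
      rw [e3, map_add, LinearMap.add_apply] at this
      have := Submodule.sub_mem _ this d0
      rwa [add_sub_cancel_right] at this
    have d2 : C A₂ m₁ ∈ Submodule.span Ω {C A m} := by
      have e3 : C (A₂ + A) m = C A m := by rw [map_add, LinearMap.add_apply, e2, zero_add]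
      have := dep2 (hr (A₂ + A) m m₁) (by rw [e3]; exact hu)
      rw [e3, map_add, LinearMap.add_apply] at this
      have := Submodule.sub_mem _ this d0
      rwa [add_sub_cancel_right] at this
    exact h4 (span_trans (span_swap h1 d1) d2)
  refine ⟨f ∘ₗ C A₁, m₁, A₁, A₂, hf, fun A m => ?_, li2 h1 h4⟩
  have h6 := hk3 A (m - f (C A₁ m) • m₁) (by
    rw [map_sub, map_sub, map_smul, map_smul, hf, smul_eq_mul, mul_one, sub_self])
  rw [map_sub, map_smul, sub_eq_zero] at h6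
  exact h6

end rankone

section setup

variable {Ω M Q S : Type*} [Field Ω] [AddCommGroup M] [Module Ω M] [AddCommGroup Q] [Module Ω Q]
  [AddCommGroup S]

theorem det3 {φ : S →+ (M →ₗ[Ω] Q)} (b : Basis (Fin 3) Ω Q)
    (hr : ∀ A, ∀ m : Fin 3 → M, ¬ LinearIndependent Ω (fun i => φ A (m i))) (A : S)
    (m : Fin 3 → M) : (Matrix.of fun i j => b.repr (φ A (m j)) i).det = 0 := by
  by_contra h
  apply hr A m
  have h1 : IsUnit (b.det fun i => φ A (m i)) := by
    rw [Basis.det_apply, isUnit_iff_ne_zero]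
    exact h
  exact ((Basis.is_basis_iff_det b).2 h1).1

/-- explicit form of the vanishing of the determinant -/
theorem det3' {φ : S →+ (M →ₗ[Ω] Q)} (b : Basis (Fin 3) Ω Q)
    (hr : ∀ A, ∀ m : Fin 3 → M, ¬ LinearIndependent Ω (fun i => φ A (m i))) (A : S)
    (u v w : M) :
    b.repr (φ A u) 0 * (b.repr (φ A v) 1 * b.repr (φ A w) 2 - b.repr (φ A v) 2 * b.repr (φ A w) 1)
    - b.repr (φ A u) 1 * (b.repr (φ A v) 0 * b.repr (φ A w) 2 -
      b.repr (φ A v) 2 * b.repr (φ A w) 0)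
    + b.repr (φ A u) 2 * (b.repr (φ A v) 0 * b.repr (φ A w) 1 -
      b.repr (φ A v) 1 * b.repr (φ A w) 0) = 0 := by
  have h := det3 b hr A ![u, v, w]
  rw [Matrix.det_fin_three] at h
  simp only [Matrix.of_apply, Matrix.cons_val_zero, Matrix.cons_val_one, Matrix.cons_val] at h
  linear_combination h

variable {φ : S →+ (M →ₗ[Ω] Q)} {b : Basis (Fin 3) Ω Q} {A₀ : S} {e₁ e₂ : M}

/-- the basic relations: `A₀` has rank 2, `m` is in its kernel -/
theorem basic (h2 : (2 : Ω) ≠ 0)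
    (hr : ∀ A, ∀ m : Fin 3 → M, ¬ LinearIndependent Ω (fun i => φ A (m i)))
    (h1 : φ A₀ e₁ = b 1) (h2' : φ A₀ e₂ = b 2) (A : S) (m : M) (hm : φ A₀ m = 0) :
    b.repr (φ A m) 0 = 0 ∧
    b.repr (φ A e₁) 0 * b.repr (φ A m) 1 + b.repr (φ A e₂) 0 * b.repr (φ A m) 2 = 0 ∧
    b.repr (φ A e₁) 0 * (b.repr (φ A e₂) 1 * b.repr (φ A m) 2 -
      b.repr (φ A e₂) 2 * b.repr (φ A m) 1) -
    b.repr (φ A e₂) 0 * (b.repr (φ A e₁) 1 * b.repr (φ A m) 2 -
      b.repr (φ A e₁) 2 * b.repr (φ A m) 1) = 0 := by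
  have e0 := det3' b hr A e₁ e₂ m
  have ep := det3' b hr (A + A₀) e₁ e₂ m
  have em := det3' b hr (A - A₀) e₁ e₂ m
  have i1 : (1 : Fin 3) ≠ 0 := by decide
  have i2 : (1 : Fin 3) ≠ 2 := by decide
  have i3 : (2 : Fin 3) ≠ 0 := by decide
  have i4 : (2 : Fin 3) ≠ 1 := by decide
  simp only [map_add, map_sub, LinearMap.add_apply, LinearMap.sub_apply, hm, h1, h2',
    add_zero, sub_zero, Finsupp.coe_add, Finsupp.coe_sub, Pi.add_apply, Pi.sub_apply,
    Basis.repr_self, Finsupp.single_apply, if_neg i1, if_neg i2, if_neg i3, if_neg i4,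
    if_true] at ep em
  have k1 : b.repr (φ A m) 0 = 0 := by
    apply mul_left_cancel₀ h2
    linear_combination ep + em - 2 * e0
  have k2 : b.repr (φ A e₁) 0 * b.repr (φ A m) 1 + b.repr (φ A e₂) 0 * b.repr (φ A m) 2 = 0 := by
    apply mul_left_cancel₀ h2
    linear_combination -ep + em + 2 * (b.repr (φ A e₁) 1 + b.repr (φ A e₂) 2) * k1
  refine ⟨k1, k2, ?_⟩
  rw [k1] at e0
  linear_combination e0

theorem zA0 (hr : ∀ A, ∀ m : Fin 3 → M, ¬ LinearIndependent Ω (fun i => φ A (m i)))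
    (h1 : φ A₀ e₁ = b 1) (h2' : φ A₀ e₂ = b 2) (m : M) : b.repr (φ A₀ m) 0 = 0 := by
  have h := det3' b hr A₀ e₁ e₂ m
  have i1 : (1 : Fin 3) ≠ 0 := by decide
  have i2 : (1 : Fin 3) ≠ 2 := by decide
  have i3 : (2 : Fin 3) ≠ 0 := by decide
  have i4 : (2 : Fin 3) ≠ 1 := by decide
  simp only [h1, h2', Basis.repr_self, Finsupp.single_apply, if_neg i1, if_neg i2, if_neg i3,
    if_neg i4, if_true] at h
  linear_combination h

theorem kmem (hr : ∀ A, ∀ m : Fin 3 → M, ¬ LinearIndependent Ω (fun i => φ A (m i)))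
    (h1 : φ A₀ e₁ = b 1) (h2' : φ A₀ e₂ = b 2) (m : M) :
    φ A₀ (m - b.repr (φ A₀ m) 1 • e₁ - b.repr (φ A₀ m) 2 • e₂) = 0 := by
  rw [map_sub, map_sub, map_smul, map_smul, h1, h2', sub_sub, sub_eq_zero]
  have h := b.sum_repr (φ A₀ m)
  rw [Fin.sum_univ_three, zA0 hr h1 h2', zero_smul, zero_add] at h
  exact h.symm

/-- some `z(A, e_i)` is not 0 -/
theorem exD (h2 : (2 : Ω) ≠ 0)
    (hr : ∀ A, ∀ m : Fin 3 → M, ¬ LinearIndependent Ω (fun i => φ A (m i)))
    (hs : Submodule.span Ω {q | ∃ A m, φ A m = q} = ⊤)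
    (h1 : φ A₀ e₁ = b 1) (h2' : φ A₀ e₂ = b 2) :
    ∃ A, b.repr (φ A e₁) 0 ≠ 0 ∨ b.repr (φ A e₂) 0 ≠ 0 := by
  by_contra hc
  push Not at hc
  have hz : Submodule.span Ω {q | ∃ A m, φ A m = q} ≤ LinearMap.ker (b.coord 0) := by
    rw [Submodule.span_le]
    rintro q ⟨A, m, rfl⟩
    have h3 := (basic h2 hr h1 h2' A _ (kmem hr h1 h2' m)).1
    rw [map_sub, map_sub, map_smul, map_smul] at h3
    simp only [map_sub, map_smul, Finsupp.coe_sub, Finsupp.coe_smul, Pi.sub_apply, Pi.smul_apply,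
      (hc A).1, (hc A).2, smul_eq_mul, mul_zero, sub_zero] at h3
    exact h3
  rw [hs] at hz
  have h4 : b.coord 0 (b 0) = 0 := hz trivial
  rw [Basis.coord_apply, Basis.repr_self, Finsupp.single_eq_same] at h4
  exact one_ne_zero h4

/-- on the kernel of `A₀` all `A` have rank at most 1 -/
theorem rk1 (h2 : (2 : Ω) ≠ 0)
    (hr : ∀ A, ∀ m : Fin 3 → M, ¬ LinearIndependent Ω (fun i => φ A (m i)))
    (hs : Submodule.span Ω {q | ∃ A m, φ A m = q} = ⊤)
    (h1 : φ A₀ e₁ = b 1) (h2' : φ A₀ e₂ = b 2) (A : S) (m m' : M) (hm : φ A₀ m = 0)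
    (hm' : φ A₀ m' = 0) :
    b.repr (φ A m) 1 * b.repr (φ A m') 2 = b.repr (φ A m) 2 * b.repr (φ A m') 1 := by
  obtain ⟨A₁, hA₁⟩ := exD h2 hr hs h1 h2'
  have key : ∀ B : S, (b.repr (φ B e₁) 0 ≠ 0 ∨ b.repr (φ B e₂) 0 ≠ 0) →
      b.repr (φ B m) 1 * b.repr (φ B m') 2 = b.repr (φ B m) 2 * b.repr (φ B m') 1 := by
    intro B hB
    have e := (basic h2 hr h1 h2' B m hm).2.1
    have e' := (basic h2 hr h1 h2' B m' hm').2.1
    rcases hB with hB | hB
    · apply mul_left_cancel₀ hB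
      linear_combination b.repr (φ B m') 2 * e - b.repr (φ B m) 2 * e'
    · apply mul_left_cancel₀ hB
      linear_combination -b.repr (φ B m') 1 * e + b.repr (φ B m) 1 * e'
  by_cases hA : b.repr (φ A e₁) 0 ≠ 0 ∨ b.repr (φ A e₂) 0 ≠ 0
  · exact key A hA
  push Not at hA
  have k0 := key A₁ hA₁
  have k1 := key (A₁ + A) (by
    simpa only [map_add, LinearMap.add_apply, Finsupp.coe_add, Pi.add_apply, hA.1, hA.2,
      add_zero] using hA₁)
  have k2 := key (A₁ - A) (by
    simpa only [map_sub, LinearMap.sub_apply, Finsupp.coe_sub, Pi.sub_apply, hA.1, hA.2,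
      sub_zero] using hA₁)
  simp only [map_add, map_sub, LinearMap.add_apply, LinearMap.sub_apply, Finsupp.coe_add,
    Finsupp.coe_sub, Pi.add_apply, Pi.sub_apply] at k1 k2
  apply mul_left_cancel₀ h2
  linear_combination k1 + k2 - 2 * k0

/-- product of three additive functions -/
theorem prod3 (h2 : (2 : Ω) ≠ 0) (f g h : S →+ Ω) (H : ∀ A, f A * g A * h A = 0)
    (hf : ∃ A, f A ≠ 0) (hg : ∃ A, g A ≠ 0) (A : S) : h A = 0 := by
  obtain ⟨A₁, h1⟩ : ∃ A, f A ≠ 0 ∧ g A ≠ 0 := by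
    obtain ⟨A₁, h1⟩ := hf
    obtain ⟨A₂, h2⟩ := hg
    by_cases h3 : g A₁ = 0
    · by_cases h4 : f A₂ = 0
      · exact ⟨A₁ + A₂, by rw [map_add, h4, add_zero]; exact h1, by
          rw [map_add, h3, zero_add]; exact h2⟩
      · exact ⟨A₂, h4, h2⟩
    · exact ⟨A₁, h1, h3⟩
  have k1 : h A₁ = 0 := by
    have := H A₁
    simpa [h1.1, h1.2] using this
  by_contra hA
  have e0 := H A
  have ep := H (A + A₁)
  have em := H (A - A₁)
  simp only [map_add, map_sub, k1, add_zero, sub_zero] at ep em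
  have e0' := (mul_eq_zero.1 e0).resolve_right hA
  have ep' := (mul_eq_zero.1 ep).resolve_right hA
  have em' := (mul_eq_zero.1 em).resolve_right hA
  have e1 : 2 * (f A₁ * g A₁) = 0 := by linear_combination ep' + em' - 2 * e0'
  exact h2 ((mul_eq_zero.1 e1).resolve_right (mul_ne_zero h1.1 h1.2))

theorem mem_line {q w : Q} (hq : q ≠ 0) (hq0 : b.repr q 0 = 0) (hw0 : b.repr w 0 = 0)
    (h : b.repr q 1 * b.repr w 2 = b.repr q 2 * b.repr w 1) : w ∈ Submodule.span Ω {q} := by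
  have hq' : b.repr q 1 ≠ 0 ∨ b.repr q 2 ≠ 0 := by
    by_contra hc
    push Not at hc
    apply hq
    rw [← b.sum_repr q, Fin.sum_univ_three, hq0, hc.1, hc.2]
    simp
  have e : ∀ s : Ω, (b.repr w 1 = s * b.repr q 1) → (b.repr w 2 = s * b.repr q 2) →
      w ∈ Submodule.span Ω {q} := by
    intro s h1 h2
    refine Submodule.mem_span_singleton.2 ⟨s, ?_⟩
    apply b.repr.injective
    ext i
    rw [map_smul, Finsupp.smul_apply, smul_eq_mul]
    fin_cases i
    · simp [hq0, hw0]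
    · exact h1.symm
    · exact h2.symm
  rcases hq' with h1 | h1
  · refine e (b.repr w 1 / b.repr q 1) (by field_simp) ?_
    field_simp
    linear_combination h
  · refine e (b.repr w 2 / b.repr q 2) ?_ (by field_simp)
    field_simp
    linear_combination -h

theorem exBasis (hQ : finrank Ω Q = 3) {u v : Q} (h : LinearIndependent Ω ![u, v]) :
    ∃ b : Basis (Fin 3) Ω Q, b 1 = u ∧ b 2 = v := by
  have hn : ∃ w, w ∉ Submodule.span Ω (Set.range ![u, v]) := by
    by_contra hc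
    push Not at hc
    have h1 : Submodule.span Ω (Set.range ![u, v]) = ⊤ := by
      rw [eq_top_iff]
      intro w _
      exact hc w
    have h2 := finrank_span_eq_card h
    rw [h1, finrank_top, hQ, Fintype.card_fin] at h2
    omega
  obtain ⟨w, hw⟩ := hn
  have hli : LinearIndependent Ω (Fin.cons w ![u, v] : Fin 3 → Q) :=
    linearIndependent_finCons.2 ⟨h, hw⟩
  refine ⟨basisOfLinearIndependentOfCardEqFinrank hli (by rw [hQ, Fintype.card_fin]), ?_, ?_⟩
  · rw [coe_basisOfLinearIndependentOfCardEqFinrank]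
    rfl
  · rw [coe_basisOfLinearIndependentOfCardEqFinrank]
    rfl

/-- the images of the kernel of `A₀` are in one line -/
theorem caseLine (h2 : (2 : Ω) ≠ 0)
    (hr : ∀ A, ∀ m : Fin 3 → M, ¬ LinearIndependent Ω (fun i => φ A (m i)))
    (hs : Submodule.span Ω {q | ∃ A m, φ A m = q} = ⊤)
    (h1 : φ A₀ e₁ = b 1) (h2' : φ A₀ e₂ = b 2) (q₀ : Q)
    (hq₀ : ∀ A m, φ A₀ m = 0 → φ A m ∈ Submodule.span Ω {q₀})
    (hne : ∃ A m, φ A₀ m = 0 ∧ φ A m ≠ 0) :
    ∃ (f : M →ₗ[Ω] Ω) (q : Q), ∀ A m, f m = 0 → φ A m ∈ Submodule.span Ω {q} := by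
  obtain ⟨A', m', hm', hne⟩ := hne
  set q := φ A' m' with hqdef
  have hq : ∀ A m, φ A₀ m = 0 → φ A m ∈ Submodule.span Ω {q} := fun A m hm =>
    span_trans (span_swap hne (hq₀ A' m' hm')) (hq₀ A m hm)
  have hq0 : b.repr q 0 = 0 := (basic h2 hr h1 h2' A' m' hm').1
  have hq' : b.repr q 1 ≠ 0 ∨ b.repr q 2 ≠ 0 := by
    by_contra hc
    push Not at hc
    apply hne
    rw [← b.sum_repr q, Fin.sum_univ_three, hq0, hc.1, hc.2]
    simp
  set p1 := b.repr q 1 with hp1
  set p2 := b.repr q 2 with hp2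
  obtain ⟨g, hg⟩ := Module.Projective.exists_dual_eq_one Ω hne
  have ht : ∀ A, φ A m' = g (φ A m') • q := by
    intro A
    obtain ⟨a, ha⟩ := Submodule.mem_span_singleton.1 (hq A m' hm')
    rw [← ha, map_smul, hg, smul_eq_mul, mul_one]
  have ht1 : ∀ A, b.repr (φ A m') 1 = g (φ A m') * p1 := fun A => by
    conv_lhs => rw [ht A]
    rw [map_smul]
    rfl
  have ht2 : ∀ A, b.repr (φ A m') 2 = g (φ A m') * p2 := fun A => by
    conv_lhs => rw [ht A]
    rw [map_smul]
    rfl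
  let t : S →+ Ω := AddMonoidHom.mk' (fun A => g (φ A m')) (fun A B => by
    rw [map_add, LinearMap.add_apply, map_add])
  let D1 : S →+ Ω := AddMonoidHom.mk' (fun A => b.repr (φ A e₁) 0) (fun A B => by
    rw [map_add, LinearMap.add_apply, map_add]; rfl)
  let D2 : S →+ Ω := AddMonoidHom.mk' (fun A => b.repr (φ A e₂) 0) (fun A B => by
    rw [map_add, LinearMap.add_apply, map_add]; rfl)
  let Dp : S →+ Ω := AddMonoidHom.mk' (fun A => b.repr (φ A e₁) 0 * p1 + b.repr (φ A e₂) 0 * p2)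
    (fun A B => by
      simp only [map_add, LinearMap.add_apply, Finsupp.coe_add, Pi.add_apply]
      ring)
  let R : S →+ Ω := AddMonoidHom.mk' (fun A => p1 * (b.repr (φ A e₁) 2 * p1 +
    b.repr (φ A e₂) 2 * p2) - p2 * (b.repr (φ A e₁) 1 * p1 + b.repr (φ A e₂) 1 * p2))
    (fun A B => by
      simp only [map_add, LinearMap.add_apply, Finsupp.coe_add, Pi.add_apply]
      ring)
  have htne : ∃ A, t A ≠ 0 := ⟨A', by
    change g q ≠ 0
    rw [hg]
    exact one_ne_zero⟩
  have hDp : ∀ A, b.repr (φ A e₁) 0 * p1 + b.repr (φ A e₂) 0 * p2 = 0 := by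
    apply prod3 h2 t t Dp _ htne htne
    intro A
    have e := (basic h2 hr h1 h2' A m' hm').2.1
    rw [ht1, ht2] at e
    change g (φ A m') * g (φ A m') * (b.repr (φ A e₁) 0 * p1 + b.repr (φ A e₂) 0 * p2) = 0
    linear_combination g (φ A m') * e
  have hR : ∀ A, p1 * (b.repr (φ A e₁) 2 * p1 + b.repr (φ A e₂) 2 * p2) -
      p2 * (b.repr (φ A e₁) 1 * p1 + b.repr (φ A e₂) 1 * p2) = 0 := by
    obtain ⟨A₁, hA₁⟩ := exD h2 hr hs h1 h2'
    rcases hA₁ with hA₁ | hA₁
    · apply prod3 h2 t D1 R _ htne ⟨A₁, hA₁⟩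
      intro A
      have e := (basic h2 hr h1 h2' A m' hm').2.2
      rw [ht1, ht2] at e
      change g (φ A m') * b.repr (φ A e₁) 0 * (p1 * (b.repr (φ A e₁) 2 * p1 +
        b.repr (φ A e₂) 2 * p2) - p2 * (b.repr (φ A e₁) 1 * p1 + b.repr (φ A e₂) 1 * p2)) = 0
      have e' := hDp A
      linear_combination -p2 * e - g (φ A m') * (b.repr (φ A e₁) 1 * p2 -
        b.repr (φ A e₁) 2 * p1) * e'
    · apply prod3 h2 t D2 R _ htne ⟨A₁, hA₁⟩
      intro A
      have e := (basic h2 hr h1 h2' A m' hm').2.2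
      rw [ht1, ht2] at e
      change g (φ A m') * b.repr (φ A e₂) 0 * (p1 * (b.repr (φ A e₁) 2 * p1 +
        b.repr (φ A e₂) 2 * p2) - p2 * (b.repr (φ A e₁) 1 * p1 + b.repr (φ A e₂) 1 * p2)) = 0
      have e' := hDp A
      linear_combination p1 * e - g (φ A m') * (b.repr (φ A e₂) 1 * p2 -
        b.repr (φ A e₂) 2 * p1) * e'
  refine ⟨p2 • (b.coord 1 ∘ₗ φ A₀) - p1 • (b.coord 2 ∘ₗ φ A₀), q, ?_⟩
  intro A m hm
  simp only [LinearMap.sub_apply, LinearMap.smul_apply, LinearMap.comp_apply, Basis.coord_apply,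
    smul_eq_mul] at hm
  have hk := hq A _ (kmem hr h1 h2' m)
  set v1 := b.repr (φ A₀ m) 1 with hv1
  set v2 := b.repr (φ A₀ m) 2 with hv2
  have hw : v1 • φ A e₁ + v2 • φ A e₂ ∈ Submodule.span Ω {q} := by
    apply mem_line (b := b) hne hq0
    · rw [map_add, map_smul, map_smul, Finsupp.add_apply, Finsupp.smul_apply, Finsupp.smul_apply,
        smul_eq_mul, smul_eq_mul]
      rcases hq' with h | h
      · apply mul_left_cancel₀ h
        linear_combination v1 * hDp A - b.repr (φ A e₂) 0 * hm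
      · apply mul_left_cancel₀ h
        linear_combination v2 * hDp A + b.repr (φ A e₁) 0 * hm
    · rw [← hp1, ← hp2]
      simp only [map_add, map_smul, Finsupp.add_apply, Finsupp.smul_apply, smul_eq_mul]
      rcases hq' with h | h
      · apply mul_left_cancel₀ h
        linear_combination v1 * hR A - (p1 * b.repr (φ A e₂) 2 - p2 * b.repr (φ A e₂) 1) * hm
      · apply mul_left_cancel₀ h
        linear_combination v2 * hR A + (p1 * b.repr (φ A e₁) 2 - p2 * b.repr (φ A e₁) 1) * hm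
  have h5 := Submodule.add_mem _ hk hw
  have h6 : φ A (m - v1 • e₁ - v2 • e₂) + (v1 • φ A e₁ + v2 • φ A e₂) = φ A m := by
    rw [map_sub, map_sub, map_smul, map_smul]
    abel
  rwa [h6] at h5

/-- skew type: `φ A m = a(A) × n(m)` in a basis -/
def Skew (φ : S →+ (M →ₗ[Ω] Q)) : Prop :=
  ∃ (b : Basis (Fin 3) Ω Q) (n : M →ₗ[Ω] (Fin 3 → Ω)) (a : S →+ (Fin 3 → Ω)),
    Function.Surjective n ∧ (∃ A : Fin 3 → S, ∀ f : (Fin 3 → Ω) →ₗ[Ω] Ω,
      (∀ i, f (a (A i)) = 0) → f = 0) ∧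
    ∀ A m, φ A m = ∑ i, (crossProduct (a A) (n m)) i • b i

/-- the images of the kernel of `A₀` are not in one line -/
theorem caseSkew {A₁ A₂ : S} {m₀ : M} (h2 : (2 : Ω) ≠ 0)
    (hr : ∀ A, ∀ m : Fin 3 → M, ¬ LinearIndependent Ω (fun i => φ A (m i)))
    (hs : Submodule.span Ω {q | ∃ A m, φ A m = q} = ⊤)
    (h1 : φ A₀ e₁ = b 1) (h2' : φ A₀ e₂ = b 2) (h3 : φ A₁ m₀ = b 1) (h4 : φ A₂ m₀ = b 2)
    (h5 : φ A₀ m₀ = 0) (hK : ∀ A m, φ A₀ m = 0 → φ A m = b.repr (φ A₁ m) 1 • φ A m₀) :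
    Skew φ := by
  have i1 : (1 : Fin 3) ≠ 0 := by decide
  have i2 : (1 : Fin 3) ≠ 2 := by decide
  have i3 : (2 : Fin 3) ≠ 0 := by decide
  have i4 : (2 : Fin 3) ≠ 1 := by decide
  have c11 : b.repr (φ A₁ m₀) 1 = 1 := by rw [h3, Basis.repr_self, Finsupp.single_eq_same]
  have c21 : b.repr (φ A₁ m₀) 2 = 0 := by
    rw [h3, Basis.repr_self, Finsupp.single_apply, if_neg i2]
  have c12 : b.repr (φ A₂ m₀) 1 = 0 := by
    rw [h4, Basis.repr_self, Finsupp.single_apply, if_neg i4]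
  have c22 : b.repr (φ A₂ m₀) 2 = 1 := by rw [h4, Basis.repr_self, Finsupp.single_eq_same]
  have hb := fun A => basic h2 hr h1 h2' A m₀ h5
  -- polar form of the second relation
  have hpol : ∀ A A', b.repr (φ A e₁) 0 * b.repr (φ A' m₀) 1 +
      b.repr (φ A e₂) 0 * b.repr (φ A' m₀) 2 + b.repr (φ A' e₁) 0 * b.repr (φ A m₀) 1 +
      b.repr (φ A' e₂) 0 * b.repr (φ A m₀) 2 = 0 := by
    intro A A'
    have e1 := (hb (A + A')).2.1
    simp only [map_add, LinearMap.add_apply, Finsupp.coe_add, Pi.add_apply] at e1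
    linear_combination e1 - (hb A).2.1 - (hb A').2.1
  set lam := b.repr (φ A₁ e₂) 0 with hlam
  have d11 : b.repr (φ A₁ e₁) 0 = 0 := by
    have := (hb A₁).2.1
    rw [c11, c21] at this
    linear_combination this
  have d22 : b.repr (φ A₂ e₂) 0 = 0 := by
    have := (hb A₂).2.1
    rw [c12, c22] at this
    linear_combination this
  have hD1 : ∀ A, b.repr (φ A e₁) 0 = -lam * b.repr (φ A m₀) 2 := by
    intro A
    have := hpol A A₁
    rw [c11, c21, d11] at this
    linear_combination this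
  have hD2 : ∀ A, b.repr (φ A e₂) 0 = lam * b.repr (φ A m₀) 1 := by
    intro A
    have := hpol A A₂
    have h6 := hD1 A₂
    rw [c22] at h6
    rw [c12, c22, d22, h6] at this
    linear_combination this
  have hlam0 : lam ≠ 0 := by
    intro h0
    obtain ⟨A, hA⟩ := exD h2 hr hs h1 h2'
    rw [hD1, hD2, h0] at hA
    simp at hA
  have hT : ∀ A, b.repr (φ A m₀) 1 ^ 2 * b.repr (φ A e₁) 2 -
      b.repr (φ A m₀) 2 ^ 2 * b.repr (φ A e₂) 1 - b.repr (φ A m₀) 1 * b.repr (φ A m₀) 2 *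
      (b.repr (φ A e₁) 1 - b.repr (φ A e₂) 2) = 0 := by
    intro A
    have h6 := (hb A).2.2
    rw [hD1, hD2] at h6
    apply mul_left_cancel₀ hlam0
    linear_combination h6
  -- values at `A₁`, `A₂`
  have x1 : b.repr (φ A₁ e₁) 2 = 0 := by
    have := hT A₁
    rw [c11, c21] at this
    linear_combination this
  have y2 : b.repr (φ A₂ e₂) 1 = 0 := by
    have := hT A₂
    rw [c12, c22] at this
    linear_combination -this
  have hp := hT (A₁ + A₂)
  have hm := hT (A₁ - A₂)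
  simp only [map_add, map_sub, LinearMap.add_apply, LinearMap.sub_apply, Finsupp.coe_add,
    Finsupp.coe_sub, Pi.add_apply, Pi.sub_apply, c11, c12, c21, c22, x1, y2] at hp hm
  have z2 : b.repr (φ A₂ e₁) 1 - b.repr (φ A₂ e₂) 2 = -b.repr (φ A₁ e₂) 1 := by
    apply mul_left_cancel₀ h2
    linear_combination -hp - hm
  have x2 : b.repr (φ A₂ e₁) 2 = b.repr (φ A₁ e₁) 1 - b.repr (φ A₁ e₂) 2 := by
    apply mul_left_cancel₀ h2
    linear_combination hp - hm
  set g1 := b.repr (φ A₁ e₁) 1 - b.repr (φ A₁ e₂) 2 with hg1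
  set g2 := b.repr (φ A₁ e₂) 1 with hg2
  have hX : ∀ A, b.repr (φ A e₁) 2 = b.repr (φ A m₀) 2 * g1 := by
    intro A
    have t0 := hT A
    have tp := hT (A + A₁)
    have tm := hT (A - A₁)
    simp only [map_add, map_sub, LinearMap.add_apply, LinearMap.sub_apply, Finsupp.coe_add,
      Finsupp.coe_sub, Pi.add_apply, Pi.sub_apply, c11, c21, x1] at tp tm
    apply mul_left_cancel₀ h2
    rw [hg1]
    linear_combination tp + tm - 2 * t0
  have hY : ∀ A, b.repr (φ A e₂) 1 = b.repr (φ A m₀) 1 * g2 := by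
    intro A
    have t0 := hT A
    have tp := hT (A + A₂)
    have tm := hT (A - A₂)
    simp only [map_add, map_sub, LinearMap.add_apply, LinearMap.sub_apply, Finsupp.coe_add,
      Finsupp.coe_sub, Pi.add_apply, Pi.sub_apply, c12, c22, y2] at tp tm
    apply mul_left_cancel₀ h2
    linear_combination -tp - tm + 2 * t0 - 2 * b.repr (φ A m₀) 1 * z2
  have hZ : ∀ A, b.repr (φ A e₂) 2 = b.repr (φ A e₁) 1 - b.repr (φ A m₀) 1 * g1 +
      b.repr (φ A m₀) 2 * g2 := by
    intro A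
    have t0 := hT A
    have t1 := hT (A + A₁)
    have t2 := hT (A + A₂)
    have t3 := hT (A + A₁ + A₂)
    have ex := hX A
    have ey := hY A
    simp only [map_add, LinearMap.add_apply, Finsupp.coe_add,
      Pi.add_apply, c11, c12, c21, c22, x1, x2, y2, ex, ey, ← hg2] at t0 t1 t2 t3
    have e1 : b.repr (φ A₁ e₁) 1 = g1 + b.repr (φ A₁ e₂) 2 := by rw [hg1]; ring
    have e2 : b.repr (φ A₂ e₁) 1 = b.repr (φ A₂ e₂) 2 - g2 := by linear_combination z2
    rw [e1] at t1 t3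
    rw [e2] at t2 t3
    linear_combination t3 - t1 - t2 + t0
  -- the new basis
  let w : Fin 3 → Ω := ![lam, -1, 1]
  have hw : ∀ i, IsUnit (w i) := by
    intro i
    rw [isUnit_iff_ne_zero]
    fin_cases i
    · exact hlam0
    · simp [w]
    · simp [w]
  let b' : Basis (Fin 3) Ω Q := (b.isUnitSMul hw).reindex (Equiv.swap 0 2)
  have hb0 : b' 0 = b 2 := by
    rw [Basis.reindex_apply, Basis.isUnitSMul_apply]
    simp [w]
  have hb1 : b' 1 = -b 1 := by
    rw [Basis.reindex_apply, Basis.isUnitSMul_apply]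
    have : (Equiv.swap (0 : Fin 3) 2).symm 1 = 1 := by decide
    rw [this]
    simp [w]
  have hb2 : b' 2 = lam • b 0 := by
    rw [Basis.reindex_apply, Basis.isUnitSMul_apply]
    simp [w]
  let n : M →ₗ[Ω] (Fin 3 → Ω) := LinearMap.pi ![b.coord 1 ∘ₗ φ A₀, b.coord 2 ∘ₗ φ A₀,
    b.coord 1 ∘ₗ φ A₁ - (b.repr (φ A₁ e₁) 1 - g1) • (b.coord 1 ∘ₗ φ A₀)]
  have hn0 : ∀ m, n m 0 = b.repr (φ A₀ m) 1 := fun m => rfl
  have hn1 : ∀ m, n m 1 = b.repr (φ A₀ m) 2 := fun m => rfl
  have hn2 : ∀ m, n m 2 = b.repr (φ A₁ m) 1 - (b.repr (φ A₁ e₁) 1 - g1) *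
    b.repr (φ A₀ m) 1 := fun m => rfl
  let a : S →+ (Fin 3 → Ω) := AddMonoidHom.mk' (fun A => ![b.repr (φ A m₀) 1,
    b.repr (φ A m₀) 2, b.repr (φ A m₀) 1 * g1 - b.repr (φ A e₁) 1]) (fun A B => by
      ext i
      fin_cases i
      · simp
      · simp
      · simp
        ring)
  have ha0 : ∀ A, a A 0 = b.repr (φ A m₀) 1 := fun A => rfl
  have ha1 : ∀ A, a A 1 = b.repr (φ A m₀) 2 := fun A => rfl
  have ha2 : ∀ A, a A 2 = b.repr (φ A m₀) 1 * g1 - b.repr (φ A e₁) 1 := fun A => rfl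
  refine ⟨b', n, a, ?_, ?_, ?_⟩
  · intro v
    refine ⟨v 0 • e₁ + v 1 • e₂ + (v 2 - v 0 * n e₁ 2 - v 1 * n e₂ 2) • m₀, ?_⟩
    have n1 : n e₁ 0 = 1 := by rw [hn0, h1, Basis.repr_self, Finsupp.single_eq_same]
    have n2 : n e₁ 1 = 0 := by
      rw [hn1, h1, Basis.repr_self, Finsupp.single_apply, if_neg i2]
    have n3 : n e₂ 0 = 0 := by
      rw [hn0, h2', Basis.repr_self, Finsupp.single_apply, if_neg i4]
    have n4 : n e₂ 1 = 1 := by rw [hn1, h2', Basis.repr_self, Finsupp.single_eq_same]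
    have n5 : n m₀ 0 = 0 := by rw [hn0, h5, map_zero]; rfl
    have n6 : n m₀ 1 = 0 := by rw [hn1, h5, map_zero]; rfl
    have n7 : n m₀ 2 = 1 := by
      rw [hn2, c11, h5, map_zero]
      simp
    ext i
    simp only [map_add, map_smul, Pi.add_apply, Pi.smul_apply, smul_eq_mul]
    fin_cases i
    · simp [n1, n3, n5]
    · simp [n2, n4, n6]
    · simp [n7]
  · refine ⟨![A₁, A₂, A₀], fun f hf => ?_⟩
    have f0 := hf 0
    have f1 := hf 1
    have f2 := hf 2
    simp only [Matrix.cons_val_zero, Matrix.cons_val_one, Matrix.cons_val] at f0 f1 f2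
    have hf' : ∀ v : Fin 3 → Ω, f v = v 0 * f (Pi.single 0 1) + v 1 * f (Pi.single 1 1) +
        v 2 * f (Pi.single 2 1) := by
      intro v
      conv_lhs => rw [pi_eq_sum_univ v, map_sum]
      rw [Fin.sum_univ_three]
      simp only [map_smul, smul_eq_mul]
      congr 1
      · congr 1
        · congr 2
          ext j
          fin_cases j <;> simp
        · congr 2
          ext j
          fin_cases j <;> simp
      · congr 2
        ext j
        fin_cases j <;> simp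
    rw [hf', ha0, ha1, ha2] at f0 f1 f2
    rw [h5, h1] at f2
    simp only [map_zero, Finsupp.coe_zero, Pi.zero_apply, Basis.repr_self,
      Finsupp.single_eq_same] at f2
    have k2 : f (Pi.single 2 1) = 0 := by linear_combination -f2
    have k0 : f (Pi.single 0 1) = 0 := by
      rw [c11, c21, k2] at f0
      linear_combination f0
    have k1 : f (Pi.single 1 1) = 0 := by
      rw [c12, c22, k2] at f1
      linear_combination f1
    ext i
    fin_cases i
    · simpa using k0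
    · simpa using k1
    · simpa using k2
  · intro A m
    have hk := hK A _ (kmem hr h1 h2' m)
    have e0 : φ A m = b.repr (φ A₀ m) 1 • φ A e₁ + b.repr (φ A₀ m) 2 • φ A e₂ +
        (b.repr (φ A₁ m) 1 - b.repr (φ A₀ m) 1 * b.repr (φ A₁ e₁) 1 -
          b.repr (φ A₀ m) 2 * g2) • φ A m₀ := by
      have e1 : b.repr (φ A₁ (m - b.repr (φ A₀ m) 1 • e₁ - b.repr (φ A₀ m) 2 • e₂)) 1 =
          b.repr (φ A₁ m) 1 - b.repr (φ A₀ m) 1 * b.repr (φ A₁ e₁) 1 -
          b.repr (φ A₀ m) 2 * g2 := by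
        rw [map_sub, map_sub, map_smul, map_smul]
        simp only [map_sub, map_smul, Finsupp.coe_sub, Finsupp.coe_smul, Pi.sub_apply,
          Pi.smul_apply, smul_eq_mul, hg2]
      rw [e1] at hk
      rw [← hk, map_sub, map_sub, map_smul, map_smul]
      abel
    have z0 : b.repr (φ A m₀) 0 = 0 := (hb A).1
    apply b.repr.injective
    rw [Fin.sum_univ_three, hb0, hb1, hb2]
    conv_lhs => rw [e0]
    have cr0 : crossProduct (a A) (n m) 0 = a A 1 * n m 2 - a A 2 * n m 1 := by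
      rw [cross_apply]; rfl
    have cr1 : crossProduct (a A) (n m) 1 = a A 2 * n m 0 - a A 0 * n m 2 := by
      rw [cross_apply]; rfl
    have cr2 : crossProduct (a A) (n m) 2 = a A 0 * n m 1 - a A 1 * n m 0 := by
      rw [cross_apply]; rfl
    rw [cr0, cr1, cr2, hn0, hn1, hn2, ha0, ha1, ha2]
    ext i
    simp only [map_add, map_smul, map_neg, Finsupp.add_apply, Finsupp.smul_apply,
      Finsupp.neg_apply, smul_eq_mul, Basis.repr_self, Finsupp.single_apply]
    fin_cases i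
    · simp [hD1, hD2, z0]
      ring
    · simp [hY]
      ring
    · simp [hX, hZ]
      ring

/-- Additive groups of linear maps of rank at most 2 into a space of dimension 3 spanned by the
images. -/
theorem atkinson (h2 : (2 : Ω) ≠ 0) (hQ : finrank Ω Q = 3) (φ : S →+ (M →ₗ[Ω] Q))
    (hr : ∀ A, ∀ m : Fin 3 → M, ¬ LinearIndependent Ω (fun i => φ A (m i)))
    (hs : Submodule.span Ω {q | ∃ A m, φ A m = q} = ⊤) :
    (∃ f g : M →ₗ[Ω] Ω, ∀ A m, f m = 0 → g m = 0 → φ A m = 0) ∨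
    (∃ (f : M →ₗ[Ω] Ω) (q : Q), ∀ A m, f m = 0 → φ A m ∈ Submodule.span Ω {q}) ∨ Skew φ := by
  by_cases hp : ∀ A m m', ¬ LinearIndependent Ω ![φ A m, φ A m']
  · rcases rank_one φ hp with ⟨q, hq⟩ | ⟨κ, m₁, A₁, A₂, -, hκ, -⟩
    · exfalso
      have h1 : (⊤ : Submodule Ω Q) ≤ Submodule.span Ω {q} := by
        rw [← hs, Submodule.span_le]
        rintro _ ⟨A, m, rfl⟩
        exact hq A m
      have h3 : finrank Ω (Submodule.span Ω {q}) = 3 := by
        rw [top_le_iff.1 h1, finrank_top, hQ]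
      have h4 := finrank_span_le_card (R := Ω) ({q} : Set Q)
      rw [h3] at h4
      simp at h4
    · right; left
      exact ⟨κ, 0, fun A m hm => by rw [hκ, hm, zero_smul]; exact zero_mem _⟩
  push Not at hp
  obtain ⟨A₀, e₁, e₂, hli⟩ := hp
  obtain ⟨b, hb1, hb2⟩ := exBasis hQ hli
  have h1 := hb1.symm
  have h2' := hb2.symm
  let K : Submodule Ω M := LinearMap.ker (φ A₀)
  let C : S →+ (K →ₗ[Ω] Q) := AddMonoidHom.mk' (fun A => φ A ∘ₗ K.subtype) (fun A B => by
    rw [map_add]; rfl)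
  have hC : ∀ A (m : K), C A m = φ A m := fun A m => rfl
  have hC1 : ∀ A m m', ¬ LinearIndependent Ω ![C A m, C A m'] := by
    intro A m m' hli
    rw [hC, hC] at hli
    have k0 := (basic h2 hr h1 h2' A m m.2).1
    have k0' := (basic h2 hr h1 h2' A m' m'.2).1
    have k1 := rk1 h2 hr hs h1 h2' A m m' m.2 m'.2
    have hne : φ A m ≠ 0 := hli.ne_zero 0
    rw [LinearIndependent.pair_iff' hne] at hli
    obtain ⟨a, ha⟩ := Submodule.mem_span_singleton.1
      (mem_line (b := b) (q := φ A m) (w := φ A m') hne k0 k0' k1)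
    exact hli a ha
  rcases rank_one C hC1 with ⟨q, hq⟩ | ⟨κ, m₁, A₁, A₂, hκ1, hκ, hli'⟩
  · by_cases hne : ∃ A m, φ A₀ m = 0 ∧ φ A m ≠ 0
    · right; left
      exact caseLine h2 hr hs h1 h2' q (fun A m hm => hq A ⟨m, hm⟩) hne
    · left
      push Not at hne
      refine ⟨b.coord 1 ∘ₗ φ A₀, b.coord 2 ∘ₗ φ A₀, fun A m hf hg => hne A m ?_⟩
      rw [← b.sum_repr (φ A₀ m), Fin.sum_univ_three, zA0 hr h1 h2']
      have hf' : b.repr (φ A₀ m) 1 = 0 := hf
      have hg' : b.repr (φ A₀ m) 2 = 0 := hg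
      rw [hf', hg']
      simp
  · right; right
    rw [hC, hC] at hli'
    obtain ⟨b', hb1', hb2'⟩ := exBasis hQ hli'
    have hpre : ∀ A, ∃ e, φ A₀ e = φ A m₁ := by
      intro A
      refine ⟨b.repr (φ A m₁) 1 • e₁ + b.repr (φ A m₁) 2 • e₂, ?_⟩
      rw [map_add, map_smul, map_smul, h1, h2']
      conv_rhs => rw [← b.sum_repr (φ A m₁), Fin.sum_univ_three,
        (basic h2 hr h1 h2' A m₁ m₁.2).1, zero_smul, zero_add]
    obtain ⟨e₁', he₁⟩ := hpre A₁
    obtain ⟨e₂', he₂⟩ := hpre A₂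
    refine caseSkew (b := b') (A₀ := A₀) (e₁ := e₁') (e₂ := e₂') (A₁ := A₁) (A₂ := A₂)
      (m₀ := m₁) h2 hr hs (he₁.trans hb1'.symm) (he₂.trans hb2'.symm) hb1'.symm hb2'.symm m₁.2 ?_
    intro A m hm
    have e1 := hκ A ⟨m, hm⟩
    have e2 := hκ A₁ ⟨m, hm⟩
    rw [hC, hC] at e1 e2
    have e3 : b'.repr (φ A₁ m) 1 = κ ⟨m, hm⟩ := by
      change φ A₁ m = _ at e2
      rw [e2, map_smul, ← hb1', Basis.repr_self]
      simp
    rw [e3]
    exact e1

end setup

section sym

variable {Ω M Q S : Type*} [Field Ω] [AddCommGroup M] [Module Ω M] [AddCommGroup Q] [Module Ω Q]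
  [AddCommGroup S] [Module Ω S]

theorem cr0 (u v : Fin 3 → Ω) : crossProduct u v 0 = u 1 * v 2 - u 2 * v 1 := by
  rw [cross_apply]; rfl

theorem cr1 (u v : Fin 3 → Ω) : crossProduct u v 1 = u 2 * v 0 - u 0 * v 2 := by
  rw [cross_apply]; rfl

theorem cr2 (u v : Fin 3 → Ω) : crossProduct u v 2 = u 0 * v 1 - u 1 * v 0 := by
  rw [cross_apply]; rfl

/-- `T(l) × n(l')` symmetric in `l, l'` implies `T = 0` -/
theorem symm_zero (h2 : (2 : Ω) ≠ 0) (T : M →ₗ[Ω] (Fin 3 → Ω)) (n : M →ₗ[Ω] (Fin 3 → Ω))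
    (hn : Function.Surjective n)
    (hs : ∀ l l', crossProduct (T l) (n l') = crossProduct (T l') (n l)) (l : M) : T l = 0 := by
  obtain ⟨m0, h0⟩ := hn (Pi.single 0 1)
  obtain ⟨m1, h1⟩ := hn (Pi.single 1 1)
  obtain ⟨m2, h3⟩ := hn (Pi.single 2 1)
  have a00 : n m0 0 = 1 := by rw [h0]; simp
  have a01 : n m0 1 = 0 := by rw [h0]; simp
  have a02 : n m0 2 = 0 := by rw [h0]; simp
  have a10 : n m1 0 = 0 := by rw [h1]; simp
  have a11 : n m1 1 = 1 := by rw [h1]; simp
  have a12 : n m1 2 = 0 := by rw [h1]; simp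
  have a20 : n m2 0 = 0 := by rw [h3]; simp
  have a21 : n m2 1 = 0 := by rw [h3]; simp
  have a22 : n m2 2 = 1 := by rw [h3]; simp
  have key : ∀ l l' i, crossProduct (T l) (n l') i = crossProduct (T l') (n l) i :=
    fun l l' i => by rw [hs]
  have k010 := key m0 m1 0
  have k011 := key m0 m1 1
  have k012 := key m0 m1 2
  have k120 := key m1 m2 0
  have k121 := key m1 m2 1
  have k122 := key m1 m2 2
  have k200 := key m2 m0 0
  have k201 := key m2 m0 1
  have k202 := key m2 m0 2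
  simp only [cr0, cr1, cr2, a00, a01, a02, a10, a11, a12, a20, a21, a22, mul_zero, mul_one,
    sub_zero, zero_sub, sub_self] at k010 k011 k012 k120 k121 k122 k200 k201 k202
  have t00 : T m0 0 = 0 := by
    apply mul_left_cancel₀ h2
    linear_combination k012 - k120 + k201
  have hT : ∀ i, T m0 i = 0 ∧ T m1 i = 0 ∧ T m2 i = 0 := by
    intro i
    fin_cases i
    · refine ⟨t00, ?_, ?_⟩
      · change T m1 0 = 0
        linear_combination -k121
      · change T m2 0 = 0
        linear_combination -k122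
    · refine ⟨?_, ?_, ?_⟩
      · change T m0 1 = 0
        linear_combination -k200
      · change T m1 1 = 0
        linear_combination k012 - t00
      · change T m2 1 = 0
        linear_combination -k202
    · refine ⟨?_, ?_, ?_⟩
      · change T m0 2 = 0
        linear_combination -k010
      · change T m1 2 = 0
        linear_combination -k011
      · change T m2 2 = 0
        linear_combination -t00 + k201
  -- the kernel of `n`
  have hker : ∀ l, n l = 0 → T l = 0 := by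
    intro l hl
    have b0 : ∀ i, n l i = 0 := fun i => by rw [hl]; rfl
    have e1 := key l m0 1
    have e2 := key l m0 2
    have e3 := key l m1 2
    simp only [cr1, cr2, a00, a01, a02, a10, a11, b0, mul_zero, mul_one,
      sub_zero, zero_sub, sub_self] at e1 e2 e3
    ext i
    fin_cases i
    · exact e3
    · change T l 1 = 0
      linear_combination -e2
    · exact e1
  have hd := hker (l - n l 0 • m0 - n l 1 • m1 - n l 2 • m2) (by
    ext i
    simp only [map_sub, map_smul, Pi.sub_apply, Pi.smul_apply, smul_eq_mul, Pi.zero_apply]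
    fin_cases i
    · simp [a00, a10, a20]
    · simp [a01, a11, a21]
    · simp [a02, a12, a22])
  have z0 : T m0 = 0 := by ext i; exact (hT i).1
  have z1 : T m1 = 0 := by ext i; exact (hT i).2.1
  have z2 : T m2 = 0 := by ext i; exact (hT i).2.2
  rw [map_sub, map_sub, map_sub, map_smul, map_smul, map_smul, z0, z1, z2] at hd
  simpa using hd

/-- the skew type extends from an additive subgroup to its span over `Ω` -/
theorem skew_extend {φ : S →ₗ[Ω] M →ₗ[Ω] Q} {Sk : AddSubgroup S}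
    (hSk : Submodule.span Ω (Sk : Set S) = ⊤)
    (h : Skew (φ.toAddMonoidHom.comp Sk.subtype)) :
    ∃ (b : Basis (Fin 3) Ω Q) (n : M →ₗ[Ω] (Fin 3 → Ω)) (a : S →ₗ[Ω] (Fin 3 → Ω)),
    Function.Surjective n ∧ ∀ A m, φ A m = ∑ i, (crossProduct (a A) (n m)) i • b i := by
  obtain ⟨b, n, a, hn, -, h⟩ := h
  obtain ⟨m0, h0⟩ := hn (Pi.single 0 1)
  obtain ⟨m1, h1⟩ := hn (Pi.single 1 1)
  have h' : ∀ (A : Sk) m i, b.repr (φ A m) i = crossProduct (a A) (n m) i := by
    intro A m i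
    have h4 : φ A m = _ := h A m
    rw [h4, map_sum, Fin.sum_univ_three]
    simp only [map_smul, Basis.repr_self, Finsupp.add_apply, Finsupp.smul_apply,
      Finsupp.single_apply, smul_eq_mul]
    fin_cases i <;> simp
  let φm : M → S →ₗ[Ω] Q := fun m => φ.flip m
  have hφm : ∀ m A, φm m A = φ A m := fun m A => rfl
  let a' : S →ₗ[Ω] (Fin 3 → Ω) := LinearMap.pi ![b.coord 2 ∘ₗ φm m1, -(b.coord 2 ∘ₗ φm m0),
    b.coord 1 ∘ₗ φm m0]
  have ha0 : ∀ A, a' A 0 = b.repr (φ A m1) 2 := fun m => rfl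
  have ha1 : ∀ A, a' A 1 = -b.repr (φ A m0) 2 := fun m => rfl
  have ha2 : ∀ A, a' A 2 = b.repr (φ A m0) 1 := fun m => rfl
  have ha : ∀ A : Sk, a' A = a A := by
    intro A
    ext i
    fin_cases i
    · change a' A 0 = a A 0
      rw [ha0, h', cr2, h1]
      simp
    · change a' A 1 = a A 1
      rw [ha1, h', cr2, h0]
      simp
    · change a' A 2 = a A 2
      rw [ha2, h', cr1, h0]
      simp
  refine ⟨b, n, a', hn, fun A m => ?_⟩
  have hA : A ∈ Submodule.span Ω (Sk : Set S) := by rw [hSk]; trivial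
  induction hA using Submodule.span_induction with
  | mem A hA =>
    rw [show a' A = a ⟨A, hA⟩ from ha ⟨A, hA⟩]
    exact h ⟨A, hA⟩ m
  | zero => simp
  | add A B _ _ hA hB =>
    rw [map_add, LinearMap.add_apply, hA, hB, ← Finset.sum_add_distrib]
    refine Finset.sum_congr rfl fun i _ => ?_
    rw [map_add, map_add, LinearMap.add_apply, Pi.add_apply, add_smul]
  | smul c A _ hA =>
    rw [map_smul, LinearMap.smul_apply, hA, Finset.smul_sum]
    refine Finset.sum_congr rfl fun i _ => ?_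
    rw [map_smul, map_smul, LinearMap.smul_apply, Pi.smul_apply, smul_assoc]

/-- Atkinson's classification with the symmetry `φ_(lB) l' = φ_(l'B) l`: `μ i l` is `l B_i`.
The rank condition is needed only for `A` in an additive subgroup `Sk` that spans. -/
theorem atkinson_sym {ι : Type*} (h2 : (2 : Ω) ≠ 0) (hQ : finrank Ω Q = 3)
    (φ : S →ₗ[Ω] M →ₗ[Ω] Q) (Sk : AddSubgroup S) (hSk : Submodule.span Ω (Sk : Set S) = ⊤)
    (hr : ∀ A ∈ Sk, ∀ m : Fin 3 → M, ¬ LinearIndependent Ω (fun i => φ A (m i)))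
    (hs : Submodule.span Ω {q | ∃ A m, φ A m = q} = ⊤)
    (μ : ι → M →ₗ[Ω] S) (hsym : ∀ i l l', φ (μ i l) l' = φ (μ i l') l) (A₀ : S)
    (hco : Submodule.span Ω ({A₀} ∪ ⋃ i, Set.range (μ i)) = ⊤) :
    (∃ f g : M →ₗ[Ω] Ω, ∀ A m, f m = 0 → g m = 0 → φ A m = 0) ∨
    (∃ (f : M →ₗ[Ω] Ω) (q : Q), ∀ A m, f m = 0 → φ A m ∈ Submodule.span Ω {q}) := by
  have hs' : Submodule.span Ω {q | ∃ A m, (φ.toAddMonoidHom.comp Sk.subtype) A m = q} = ⊤ := by
    rw [eq_top_iff, ← hs, Submodule.span_le]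
    rintro _ ⟨A, m, rfl⟩
    have hA : A ∈ Submodule.span Ω (Sk : Set S) := by rw [hSk]; trivial
    induction hA using Submodule.span_induction with
    | mem A hA => exact Submodule.subset_span ⟨⟨A, hA⟩, m, rfl⟩
    | zero =>
      rw [map_zero]
      exact zero_mem _
    | add A B _ _ hA hB =>
      rw [map_add]
      exact Submodule.add_mem _ hA hB
    | smul c A _ hA =>
      rw [map_smul]
      exact Submodule.smul_mem _ _ hA
  rcases atkinson h2 hQ (φ.toAddMonoidHom.comp Sk.subtype) (fun A m => hr A A.2 m) hs' with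
    ⟨f, g, h⟩ | ⟨f, q, h⟩ | h
  · left
    refine ⟨f, g, fun A m hf hg => ?_⟩
    have hA : A ∈ Submodule.span Ω (Sk : Set S) := by rw [hSk]; trivial
    induction hA using Submodule.span_induction with
    | mem A hA => exact h ⟨A, hA⟩ m hf hg
    | zero => simp
    | add A B _ _ hA hB => rw [map_add, LinearMap.add_apply, hA, hB, add_zero]
    | smul c A _ hA => rw [map_smul, LinearMap.smul_apply, hA, smul_zero]
  · right
    refine ⟨f, q, fun A m hf => ?_⟩
    have hA : A ∈ Submodule.span Ω (Sk : Set S) := by rw [hSk]; trivial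
    induction hA using Submodule.span_induction with
    | mem A hA => exact h ⟨A, hA⟩ m hf
    | zero =>
      rw [map_zero]
      exact zero_mem _
    | add A B _ _ hA hB =>
      rw [map_add]
      exact Submodule.add_mem _ hA hB
    | smul c A _ hA =>
      rw [map_smul]
      exact Submodule.smul_mem _ _ hA
  · exfalso
    obtain ⟨b, n, a, hn, hφ⟩ := skew_extend hSk h
    have h' : ∀ A m i, b.repr (φ A m) i = crossProduct (a A) (n m) i := by
      intro A m i
      rw [hφ A m, map_sum, Fin.sum_univ_three]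
      simp only [map_smul, Basis.repr_self, Finsupp.add_apply, Finsupp.smul_apply,
        Finsupp.single_apply, smul_eq_mul]
      fin_cases i <;> simp
    have hz : ∀ i l, a (μ i l) = 0 := by
      intro i
      apply symm_zero h2 (a ∘ₗ μ i) n hn
      intro l l'
      ext j
      change crossProduct (a (μ i l)) (n l') j = crossProduct (a (μ i l')) (n l) j
      rw [← h', ← h', hsym]
    have hA : ∀ A, ∃ c : Ω, a A = c • a A₀ := by
      intro A
      have hA : A ∈ Submodule.span Ω ({A₀} ∪ ⋃ i, Set.range (μ i)) := by rw [hco]; trivial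
      induction hA using Submodule.span_induction with
      | mem A hA =>
        rcases hA with rfl | hA
        · exact ⟨1, by rw [one_smul]⟩
        · obtain ⟨i, l, rfl⟩ := Set.mem_iUnion.1 hA
          exact ⟨0, by rw [hz, zero_smul]⟩
      | zero => exact ⟨0, by rw [map_zero, zero_smul]⟩
      | add A B _ _ hA hB =>
        obtain ⟨c, hc⟩ := hA
        obtain ⟨c', hc'⟩ := hB
        exact ⟨c + c', by rw [map_add, hc, hc', add_smul]⟩
      | smul t A _ hA =>
        obtain ⟨c, hc⟩ := hA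
        exact ⟨t * c, by rw [map_smul, hc, smul_smul]⟩
    -- the functional `a(A₀)` kills all images
    let F : Q →ₗ[Ω] Ω := ∑ i, a A₀ i • b.coord i
    have hF : ∀ q, F q = ∑ i, a A₀ i * b.repr q i := by
      intro q
      simp [F]
    have hF0 : Submodule.span Ω {q | ∃ A m, φ A m = q} ≤ LinearMap.ker F := by
      rw [Submodule.span_le]
      rintro _ ⟨A, m, rfl⟩
      obtain ⟨c, hc⟩ := hA A
      change F (φ A m) = 0
      rw [hF, Fin.sum_univ_three, h', h', h', cr0, cr1, cr2, hc]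
      simp only [Pi.smul_apply, smul_eq_mul]
      ring
    rw [hs] at hF0
    have hai : ∀ i, a A₀ i = 0 := by
      intro i
      have h5 : F (b i) = 0 := hF0 trivial
      rw [hF, Fin.sum_univ_three, Basis.repr_self] at h5
      fin_cases i <;> simpa [Finsupp.single_apply] using h5
    have ha0 : a A₀ = 0 := by
      ext i
      exact hai i
    have hall : ∀ A m, φ A m = 0 := by
      intro A m
      obtain ⟨c, hc⟩ := hA A
      rw [hφ, hc, ha0, smul_zero, map_zero]
      simp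
    have htop : (⊤ : Submodule Ω Q) ≤ ⊥ := by
      rw [← hs, Submodule.span_le]
      rintro _ ⟨A, m, rfl⟩
      rw [hall]
      exact zero_mem _
    have h6 : finrank Ω Q = 0 := by
      rw [← finrank_top, le_bot_iff.1 htop, finrank_bot]
    omega

end sym

end Pool.Agent.T2.H76
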